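import Pool.Agent.helper21.HD.Act
import Pool.Agent.helper21.HD.ClassF
import Pool.Agent.helper21.HD.Irr
import Pool.Agent.helper21.LD.Defs
import Pool.Agent.helper44.Gen.GDefs

/-!
# Wild rational functions of large degree: the algebraic part (helper44, helper21, MP_11236d_an,
stage 6): definitions
-/

namespace WildLA

open Polynomial WildRat WildS WildV WildH

/-- The least common multiple of the indices over `c`. -/
noncomputable def oc (A : RF) (c : P1) : ℕ := (pas A c).lcm

/-- The Galois closure of `ℂ(x)` over `ℂ(A(x))` has genus at most one: the sum of `1 - 1 / o` over the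
values, `o` the least common multiple of the indices over the value, is at most two. -/
def GalLe (A : RF) : Prop := ∀ T : Finset P1, ∑ c ∈ T, (1 - 1 / (oc A c : ℚ)) ≤ 2

/-- Indecomposable. -/
def Indec (A : RF) : Prop := ∀ B C : RF, 1 ≤ B.n → 1 ≤ C.n → A.IsComp B C → B.n = 1 ∨ C.n = 1

variable {L : Type} [Field L] [Algebra ℂ L]

/-- `L` is an algebraic closure of `ℂ(t)`, `t = δ X`, and `s` is the set of the solutions of
`A(z) = t`. -/
structure SolS (A : RF) (δ : E →ₐ[ℂ] L) (s : Finset L) : Prop where
  amb : Amb δ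
  mem : ∀ z, z ∈ s ↔ Sol A (δ RatFunc.X) z
  card : s.card = A.n

/-- The set of the solutions exists. -/
theorem exists_SolS {A : RF} (hA : WildG.NormG A) {δ : E →ₐ[ℂ] L} (h : Amb δ) :
    ∃ s : Finset L, SolS A δ s := by
  have hn : 1 ≤ A.n := le_trans (by norm_num) hA.two
  obtain ⟨s, h1, h2, -⟩ := h.roots hn hA.monic hA.lt
  exact ⟨s, h, h1, h2⟩

end WildLA
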