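import Pool.Agent.helper21.WV.Asm
import Pool.Agent.helper44.LA.Defs

/-! If the Galois closure has genus at most one, the weight is small. -/

namespace WildLA

open Polynomial WildRat WildS WildV WildH

theorem NumA_gcd {a b o : ℕ} (ho : 1 ≤ o) (ha : a ∣ o) (hb : b ∣ o) :
    (a : ℚ) * b / o ≤ Nat.gcd a b := by
  have h1 : Nat.lcm a b ≤ o := Nat.le_of_dvd ho (Nat.lcm_dvd ha hb)
  have h2 : a * b ≤ Nat.gcd a b * o := by
    rw [← Nat.gcd_mul_lcm a b]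
    exact Nat.mul_le_mul le_rfl h1
  have h3 : (0 : ℚ) < o := by exact_mod_cast ho
  rw [div_le_iff₀ h3]
  exact_mod_cast h2

theorem NumA_row {ι : Type} [DecidableEq ι] (S : Finset ι) (e : ι → ℕ) {o n : ℕ}
    (he : ∀ i ∈ S, 1 ≤ e i) (ho : 1 ≤ o) (hd : ∀ i ∈ S, e i ∣ o) (hs : ∑ i ∈ S, e i = n)
    {i : ι} (hi : i ∈ S) :
    1 + (e i : ℚ) * (n - 1) / o ≤ ∑ j ∈ S, (Nat.gcd (e i) (e j) : ℚ) := by
  have hoq : (0 : ℚ) < o := by exact_mod_cast ho
  have h1 : ∑ j ∈ S, ((e i : ℚ) * e j / o + if i = j then ((e i : ℚ) - (e i : ℚ) * e i / o) else 0) ≤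
      ∑ j ∈ S, (Nat.gcd (e i) (e j) : ℚ) := by
    refine Finset.sum_le_sum fun j hj => ?_
    by_cases hij : i = j
    · subst hij
      rw [if_pos rfl, Nat.gcd_self]
      linarith
    · rw [if_neg hij, add_zero]
      exact NumA_gcd ho (hd i hi) (hd j hj)
  refine le_trans ?_ h1
  rw [Finset.sum_add_distrib, Finset.sum_ite_eq, if_pos hi, ← Finset.sum_div, ← Finset.mul_sum]
  have h2 : ∑ j ∈ S, (e j : ℚ) = n := by
    rw [← hs, Nat.cast_sum]
  rw [h2]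
  have hle : (e i : ℚ) ≤ o := by exact_mod_cast Nat.le_of_dvd ho (hd i hi)
  have h1i : (1 : ℚ) ≤ e i := by exact_mod_cast he i hi
  have h3 : (e i : ℚ) * (e i - 1) / o ≤ e i - 1 := by
    rw [div_le_iff₀ hoq]
    nlinarith
  have h4 : (e i : ℚ) * (n - 1) / o = (e i : ℚ) * n / o - (e i : ℚ) * e i / o +
      (e i : ℚ) * (e i - 1) / o := by ring
  rw [h4]
  linarith

/-- **Numerical lemma.**  For positive numbers `e i`, `i ∈ S`, dividing `o`, with sum `n`: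
`∑ (e i - gcd (e i) (e j)) + n (n - 1) / o ≤ (n - 1) card S`.

Proof.  `∑ gcd (e i) (e j) ≥ card S + n (n - 1) / o`: for `i ≠ j`, `gcd = e i * e j / lcm ≥ e i * e j / o` (the `lcm` divides
`o`), and `e i - 1 ≥ e i (e i - 1) / o` (`e i ≤ o`).  Sum: `∑ i, ∑ j ≠ i, gcd + ∑ i, (e i - 1) ≥ (n ^ 2 - n) / o`.  And
`∑ i, ∑ j, e i = n card S`. -/
theorem wt_sum_le {ι : Type} [DecidableEq ι] (S : Finset ι) (e : ι → ℕ) {o n : ℕ}
    (he : ∀ i ∈ S, 1 ≤ e i) (ho : 1 ≤ o) (hd : ∀ i ∈ S, e i ∣ o) (hs : ∑ i ∈ S, e i = n) :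
    (∑ i ∈ S, ∑ j ∈ S, ((e i : ℚ) - Nat.gcd (e i) (e j))) + (n : ℚ) * (n - 1) / o ≤
      ((n : ℚ) - 1) * S.card := by
  have h1 : ∑ i ∈ S, (1 + (e i : ℚ) * (n - 1) / o) ≤
      ∑ i ∈ S, ∑ j ∈ S, (Nat.gcd (e i) (e j) : ℚ) :=
    Finset.sum_le_sum fun i hi => NumA_row S e he ho hd hs hi
  have h2 : ∑ j ∈ S, (e j : ℚ) = n := by
    rw [← hs, Nat.cast_sum]
  rw [Finset.sum_add_distrib, Finset.sum_const, nsmul_one, ← Finset.sum_div, ← Finset.sum_mul,
    h2] at h1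
  have h3 : ∑ i ∈ S, ∑ j ∈ S, ((e i : ℚ) - Nat.gcd (e i) (e j)) =
      S.card * n - ∑ i ∈ S, ∑ j ∈ S, (Nat.gcd (e i) (e j) : ℚ) := by
    simp only [Finset.sum_sub_distrib, Finset.sum_const, nsmul_eq_mul]
    rw [← Finset.mul_sum, h2]
  rw [h3]
  linarith

/-- The weight of a fibre.  Proof: `wt_sum_le` for `S = fibP A c`, `e = A.e`, `o = oc A c` (`Multiset.dvd_lcm`,
`pas_sum`, `pas_pos`; `oc A c` is not zero; `Nat.gcd a b ≤ a` for the subtraction in `wt`). -/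
theorem wt_le {A : RF} (hn : 1 ≤ A.n) (c : P1) :
    (wt (pas A c) : ℚ) ≤ ((A.n : ℚ) - 1) * (Multiset.card (pas A c) - A.n / (oc A c : ℚ)) := by
  have hpos : ∀ z ∈ fibP A c, 1 ≤ A.e z := fun z _ => A.one_le_e hn z
  have hoc0 : oc A c ≠ 0 := by
    intro h0
    unfold oc at h0
    rw [Multiset.lcm_eq_zero_iff] at h0
    have := pas_pos hn c 0 h0
    omega
  have hdvd : ∀ z ∈ fibP A c, A.e z ∣ oc A c := fun z hz =>
    Multiset.dvd_lcm (Multiset.mem_map.2 ⟨z, hz, rfl⟩)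
  have hsum : ∑ z ∈ fibP A c, A.e z = A.n := pas_sum hn c
  have h1 := wt_sum_le (fibP A c) A.e hpos (Nat.one_le_iff_ne_zero.2 hoc0) hdvd hsum
  have h2 : (wt (pas A c) : ℚ) =
      ∑ i ∈ fibP A c, ∑ j ∈ fibP A c, ((A.e i : ℚ) - Nat.gcd (A.e i) (A.e j)) := by
    have e1 : wt (pas A c) = ∑ i ∈ fibP A c, ∑ j ∈ fibP A c, (A.e i - Nat.gcd (A.e i) (A.e j)) := by
      unfold wt pas
      simp only [Multiset.map_map, Function.comp_def]
      rfl
    rw [e1, Nat.cast_sum]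
    refine Finset.sum_congr rfl fun i hi => ?_
    rw [Nat.cast_sum]
    refine Finset.sum_congr rfl fun j _ => ?_
    rw [Nat.cast_sub (Nat.le_of_dvd (hpos i hi) (Nat.gcd_dvd_left _ _))]
  rw [h2, card_pas]
  have h3 : ((A.n : ℚ) - 1) * (((fibP A c).card : ℚ) - A.n / (oc A c : ℚ)) =
      ((A.n : ℚ) - 1) * (fibP A c).card - (A.n : ℚ) * (A.n - 1) / (oc A c) := by ring
  rw [h3]
  linarith

/-- **Galois closure of genus at most one implies the numerical condition.**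

Proof.  Let `T' = T ∪ critV A`.  Outside `critV A` all indices are one, so `card (pas A c) = A.n`; so
`∑ c ∈ T', (A.n - card (pas A c)) = 2 A.n - 2` (`rh_fibres`).  By `wt_le`,
`∑ over T of wt ≤ ∑ over T' of wt ≤ (n - 1) ∑ (card - n / o) = (n - 1) (n ∑ (1 - 1 / o) - (2 n - 2)) ≤ 2 (n - 1)`. -/
theorem tw_of_galLe {A : RF} (hn : 1 ≤ A.n) (h : GalLe A) : WildG.TW A := by
  classical
  intro T
  have hnq : (1 : ℚ) ≤ A.n := by exact_mod_cast hn
  have hout : ∀ c, c ∉ critV A hn → Multiset.card (pas A c) = A.n := by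
    intro c hc
    have h1 := sum_sub_one hn c
    have h2 : ∑ z ∈ fibP A c, ((A.e z : ℤ) - 1) = 0 := by
      refine Finset.sum_eq_zero fun z hz => ?_
      have h3 := A.one_le_e hn z
      have h4 : ¬ 2 ≤ A.e z := fun h5 => hc ((mem_critV hn).2 ⟨z, (mem_fibP hn).1 hz, h5⟩)
      omega
    omega
  have hrh : ∑ c ∈ T ∪ critV A hn, ((A.n : ℤ) - Multiset.card (pas A c)) = 2 * A.n - 2 := by
    rw [← rh_fibres hn]
    symm
    refine Finset.sum_subset Finset.subset_union_right fun c _ hc => ?_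
    rw [hout c hc]
    ring
  have hrhq : ∑ c ∈ T ∪ critV A hn, ((A.n : ℚ) - Multiset.card (pas A c)) = 2 * A.n - 2 := by
    have := congrArg (fun z : ℤ => (z : ℚ)) hrh
    push_cast at this
    exact this
  have hgal := h (T ∪ critV A hn)
  have hle : ((∑ c ∈ T, wt (pas A c) : ℕ) : ℚ) ≤ 2 * A.n - 2 := by
    calc ((∑ c ∈ T, wt (pas A c) : ℕ) : ℚ) ≤ ((∑ c ∈ T ∪ critV A hn, wt (pas A c) : ℕ) : ℚ) := by
          exact_mod_cast Finset.sum_le_sum_of_subset (Finset.subset_union_left)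
      _ = ∑ c ∈ T ∪ critV A hn, (wt (pas A c) : ℚ) := by rw [Nat.cast_sum]
      _ ≤ ∑ c ∈ T ∪ critV A hn,
          ((A.n : ℚ) - 1) * (Multiset.card (pas A c) - A.n / (oc A c : ℚ)) :=
          Finset.sum_le_sum fun c _ => wt_le hn c
      _ = ((A.n : ℚ) - 1) * (A.n * ∑ c ∈ T ∪ critV A hn, (1 - 1 / (oc A c : ℚ)) -
          ∑ c ∈ T ∪ critV A hn, ((A.n : ℚ) - Multiset.card (pas A c))) := by
          rw [← Finset.mul_sum, Finset.mul_sum _ _ (A.n : ℚ), ← Finset.sum_sub_distrib]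
          congr 1
          refine Finset.sum_congr rfl fun c _ => ?_
          ring
      _ ≤ 2 * A.n - 2 := by
          rw [hrhq]
          have h5 := mul_le_mul_of_nonneg_left hgal (by linarith : (0 : ℚ) ≤ A.n)
          have h6 : (A.n : ℚ) * ∑ c ∈ T ∪ critV A hn, (1 - 1 / (oc A c : ℚ)) - (2 * A.n - 2) ≤ 2 := by
            linarith
          have h7 := mul_le_mul_of_nonneg_left h6 (by linarith : (0 : ℚ) ≤ (A.n : ℚ) - 1)
          linarith
  have h2 : ((2 * A.n - 2 : ℕ) : ℚ) = 2 * A.n - 2 := by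
    rw [Nat.cast_sub (by omega)]
    push_cast
    ring
  rw [← h2] at hle
  exact_mod_cast hle

end WildLA
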