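import Pool.Agent.helper44.LA.GrpA

/-! The permutation of the inertia automorphism (proofs: helper41). -/

namespace WildLA

open Polynomial WildRat WildS WildV WildH Equiv

variable {L : Type} [Field L] [Algebra ℂ L]

/-- The data over a finite value `t0`: a valuation ring and the permutation given by the inertia
automorphism; `pt u` is the point near the solution `u`. -/
structure Inert (A : RF) (δ : E →ₐ[ℂ] L) (s : Finset L) (t0 : ℂ) (O : ValuationSubring L)
    (pt : s → ℂ) (π : Perm s) : Prop where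
  const : ∀ c : ℂ, algebraMap ℂ L c ∈ O
  near : Near O (δ RatFunc.X) t0
  mem : π ∈ Act_G s (δ RatFunc.X)
  pt_fC : ∀ u, pt u ∈ fC A t0
  pt_near : ∀ (u : s) (b : ℂ), Near O (u : L) b ↔ b = pt u
  pt_card : ∀ a ∈ fC A t0, (Finset.univ.filter fun u : s => pt u = a).card = A.e (some a)
  period : ∀ u, Function.minimalPeriod π u = A.e (some (pt u))

/-- A transitive permutation of a finite set has period the number of its elements. -/
theorem period_eq {Ω : Type} [Fintype Ω] [DecidableEq Ω] (π : Perm Ω) (S : Finset Ω)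
    (hS : ∀ z ∈ S, π z ∈ S) (htr : ∀ z ∈ S, ∀ z' ∈ S, ∃ k : ℕ, (π ^ k) z = z') {z : Ω}
    (hz : z ∈ S) : Function.minimalPeriod π z = S.card := by
  have hit : ∀ k, (⇑π)^[k] z ∈ S := by
    intro k
    induction k with
    | zero => exact hz
    | succ k ih =>
      rw [Function.iterate_succ_apply']
      exact hS _ ih
  have hper : z ∈ Function.periodicPts π := by
    obtain ⟨k, hk⟩ := htr _ (hS z hz) _ hz
    rw [← Equiv.Perm.iterate_eq_pow] at hk
    exact ⟨k + 1, Nat.succ_pos k, hk⟩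
  have hpos := Function.minimalPeriod_pos_of_mem_periodicPts hper
  have h1 : (Finset.range (Function.minimalPeriod π z)).image (fun i => (⇑π)^[i] z) = S := by
    ext y
    rw [Finset.mem_image]
    constructor
    · rintro ⟨i, -, rfl⟩
      exact hit i
    · intro hy
      obtain ⟨k, hk⟩ := htr _ hz _ hy
      rw [← Equiv.Perm.iterate_eq_pow] at hk
      refine ⟨k % Function.minimalPeriod π z, Finset.mem_range.2 (Nat.mod_lt _ hpos), ?_⟩
      rw [Function.iterate_mod_minimalPeriod_eq]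
      exact hk
  rw [← h1, Finset.card_image_of_injOn, Finset.card_range]
  intro i hi j hj hij
  exact Function.iterate_injOn_Iio_minimalPeriod (Finset.mem_range.1 hi)
    (Finset.mem_range.1 hj) hij

/-- **The inertia permutation.**

Proof.  `O` from `exists_O`, `σ` from `exists_sigma`, `π` from `SolS.act`; `pt u` from the first part of
`near_count`; `pt_card` is the second part; `period`: `period_eq` for the set of the solutions near `pt u`
(`Act_pow` for the powers). -/
theorem exists_inert {A : RF} (hA : WildG.NormG A) {δ : E →ₐ[ℂ] L} {s : Finset L}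
    (h : SolS A δ s) (t0 : ℂ) : ∃ O pt π, Inert A δ s t0 O pt π := by
  classical
  have hn : 1 ≤ A.n := le_trans (by norm_num) hA.two
  obtain ⟨O, hO, ht⟩ := exists_O (δ := δ) t0
  obtain ⟨σ, hσt, hσn, hσtr⟩ := exists_sigma hn hA.monic hA.lt h.amb O hO ht
  obtain ⟨hnear, hcnt⟩ := near_count hn hA.monic hA.lt h.amb O hO ht
  obtain ⟨π, hπ, hσπ⟩ := h.act σ hσt
  choose pt hpt1 hpt2 hpt3 using fun u : s => hnear u ((h.mem _).1 u.2)
  have hiff : ∀ (u : s) (b : ℂ), Near O (u : L) b ↔ b = pt u := fun u b =>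
    ⟨hpt3 u b, fun hb => by rw [hb]; exact hpt1 u⟩
  have hcard : ∀ a ∈ fC A t0,
      (Finset.univ.filter fun u : s => pt u = a).card = A.e (some a) := by
    intro a ha
    obtain ⟨r, hr, hrc⟩ := hcnt a ha
    rw [← hrc, ← Finset.card_map (Function.Embedding.subtype _)]
    congr 1
    ext y
    rw [Finset.mem_map, hr]
    constructor
    · rintro ⟨u, hu, rfl⟩
      rw [Finset.mem_filter] at hu
      exact ⟨(h.mem _).1 u.2, (hiff u a).2 hu.2.symm⟩
    · rintro ⟨h1, h2⟩
      exact ⟨⟨y, (h.mem _).2 h1⟩,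
        Finset.mem_filter.2 ⟨Finset.mem_univ _, ((hiff _ a).1 h2).symm⟩, rfl⟩
  refine ⟨O, pt, π, hO, ht, hπ, hpt2, hiff, fun a ha => ?_, fun u => ?_⟩
  · rw [← hcard a ha]
  rw [← hcard (pt u) (hpt2 u)]
  refine period_eq π _ ?_ ?_ ?_
  · intro z hz
    rw [Finset.mem_filter] at hz ⊢
    refine ⟨Finset.mem_univ _, ?_⟩
    have h1 := hσn z ((h.mem _).1 z.2) (pt u) ((hiff z _).2 hz.2.symm)
    rw [hσπ] at h1
    exact ((hiff _ _).1 h1).symm
  · intro z hz z' hz'
    rw [Finset.mem_filter] at hz hz'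
    obtain ⟨k, hk⟩ := hσtr z z' ((h.mem _).1 z.2) ((h.mem _).1 z'.2) (pt u)
      ((hiff z _).2 hz.2.symm) ((hiff z' _).2 hz'.2.symm)
    rw [Act_pow hσπ] at hk
    exact ⟨k, Subtype.ext hk⟩
  · exact Finset.mem_filter.2 ⟨Finset.mem_univ _, rfl⟩

/-- The least common multiple of the indices divides the order of the permutation.

Proof.  `pas A (some t0) = pasF A t0` (`pasF_eq`), `Multiset.lcm_dvd`; every `a ∈ fC A t0` is `pt u` for some
`u` (`pt_card`, `1 ≤ A.e`), and `minimalPeriod π u ∣ orderOf π`. -/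
theorem Inert.oc_dvd {A : RF} (hA : WildG.NormG A) {δ : E →ₐ[ℂ] L} {s : Finset L} {t0 : ℂ}
    {O : ValuationSubring L} {pt : s → ℂ} {π : Perm s} (h : Inert A δ s t0 O pt π) :
    oc A (some t0) ∣ orderOf π := by
  have hn : 1 ≤ A.n := le_trans (by norm_num) hA.two
  unfold oc
  rw [pasF_eq hn hA.lt, Multiset.lcm_dvd]
  intro e he
  unfold pasF at he
  rw [Multiset.mem_map] at he
  obtain ⟨a, ha, rfl⟩ := he
  have ha' : a ∈ fC A t0 := ha
  have h1 : 0 < (Finset.univ.filter fun u : s => pt u = a).card := by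
    rw [h.pt_card a ha']
    exact A.one_le_e hn _
  obtain ⟨u, hu⟩ := Finset.card_pos.1 h1
  rw [Finset.mem_filter] at hu
  rw [← hu.2, ← h.period u]
  apply Function.IsPeriodicPt.minimalPeriod_dvd
  show (⇑π)^[orderOf π] u = u
  rw [Equiv.Perm.iterate_eq_pow, pow_orderOf_eq_one]
  rfl

/-- Sums over the solutions: `∑ u, f (pt u) = ∑ a, e_a f a`. -/
theorem Inert.sum_pt {A : RF} {δ : E →ₐ[ℂ] L} {s : Finset L} {t0 : ℂ}
    {O : ValuationSubring L} {pt : s → ℂ} {π : Perm s} (h : Inert A δ s t0 O pt π) (f : ℂ → ℚ) :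
    ∑ u : s, f (pt u) = ∑ a ∈ fC A t0, (A.e (some a) : ℚ) * f a := by
  rw [← Finset.sum_fiberwise_of_maps_to (s := Finset.univ) (t := fC A t0) (g := pt)
    (fun u _ => h.pt_fC u)]
  refine Finset.sum_congr rfl fun a ha => ?_
  rw [← h.pt_card a ha, ← nsmul_eq_mul, ← Finset.sum_const]
  refine Finset.sum_congr rfl fun u hu => ?_
  rw [(Finset.mem_filter.1 hu).2]

/-- The index of the permutation.  Proof: `Inert.sum_pt` for `f a = 1 / e_a`, `1 ≤ e_a`. -/
theorem Inert.index {A : RF} (hA : WildG.NormG A) {δ : E →ₐ[ℂ] L} {s : Finset L}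
    (hs : SolS A δ s) {t0 : ℂ}
    {O : ValuationSubring L} {pt : s → ℂ} {π : Perm s} (h : Inert A δ s t0 O pt π) :
    ∑ u : s, (1 - 1 / (Function.minimalPeriod π u : ℚ)) = A.n - (fC A t0).card := by
  have hn : 1 ≤ A.n := le_trans (by norm_num) hA.two
  have h1 : ∑ u : s, (1 / (Function.minimalPeriod π u : ℚ)) = (fC A t0).card := by
    have h2 := h.sum_pt fun a => 1 / (A.e (some a) : ℚ)
    have h3 : ∑ u : s, (1 / (Function.minimalPeriod π u : ℚ)) =
        ∑ u : s, 1 / (A.e (some (pt u)) : ℚ) :=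
      Finset.sum_congr rfl fun u _ => by rw [h.period u]
    rw [h3, h2, Finset.card_eq_sum_ones, Nat.cast_sum]
    refine Finset.sum_congr rfl fun a _ => ?_
    have h4 : (0 : ℚ) < (A.e (some a) : ℚ) := by exact_mod_cast A.one_le_e hn (some a)
    rw [Nat.cast_one]
    field_simp
  rw [Finset.sum_sub_distrib, h1, Finset.sum_const, nsmul_eq_mul, mul_one, Finset.card_univ,
    Fintype.card_coe, hs.card]

end WildLA
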