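import Pool.Agent.helper44.LA.Defs

/-! Orders and valuation subrings. -/

namespace WildLA

open Polynomial WildRat WildS WildV WildH

variable {L : Type} [Field L] [Algebra ℂ L]

/-- `z` and `w` differ by a unit of the valuation ring. -/
def Ass (O : ValuationSubring L) (z w : L) : Prop := ∃ ε : L, ε ∈ O ∧ ε⁻¹ ∈ O ∧ ε ≠ 0 ∧ z = ε * w

theorem Ass.refl (O : ValuationSubring L) (z : L) : Ass O z z :=
  ⟨1, O.one_mem, by rw [inv_one]; exact O.one_mem, one_ne_zero, (one_mul z).symm⟩

theorem Ass.symm {O : ValuationSubring L} {z w : L} (h : Ass O z w) : Ass O w z := by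
  obtain ⟨ε, h1, h2, h3, h4⟩ := h
  refine ⟨ε⁻¹, h2, by rwa [inv_inv], inv_ne_zero h3, ?_⟩
  rw [h4, ← mul_assoc, inv_mul_cancel₀ h3, one_mul]

theorem Ass.trans {O : ValuationSubring L} {z w v : L} (h : Ass O z w) (h' : Ass O w v) :
    Ass O z v := by
  obtain ⟨ε, h1, h2, h3, h4⟩ := h
  obtain ⟨ε', h1', h2', h3', h4'⟩ := h'
  refine ⟨ε * ε', O.mul_mem _ _ h1 h1', ?_, mul_ne_zero h3 h3', ?_⟩
  · rw [mul_inv]
    exact O.mul_mem _ _ h2 h2'
  · rw [h4, h4', mul_assoc]

theorem Ass.mul {O : ValuationSubring L} {z w z' w' : L} (h : Ass O z w) (h' : Ass O z' w') :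
    Ass O (z * z') (w * w') := by
  obtain ⟨ε, h1, h2, h3, h4⟩ := h
  obtain ⟨ε', h1', h2', h3', h4'⟩ := h'
  refine ⟨ε * ε', O.mul_mem _ _ h1 h1', ?_, mul_ne_zero h3 h3', ?_⟩
  · rw [mul_inv]
    exact O.mul_mem _ _ h2 h2'
  · rw [h4, h4']
    ring

theorem Ass.pow {O : ValuationSubring L} {z w : L} (h : Ass O z w) (k : ℕ) :
    Ass O (z ^ k) (w ^ k) := by
  induction k with
  | zero => rw [pow_zero, pow_zero]; exact Ass.refl O 1
  | succ k ih => rw [pow_succ, pow_succ]; exact ih.mul h

/-- Association in terms of the valuation. -/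
theorem OrdA_iff {O : ValuationSubring L} {z w : L} :
    Ass O z w ↔ O.valuation z = O.valuation w := by
  constructor
  · rintro ⟨ε, h1, h2, h3, rfl⟩
    have h4 : O.valuation ε ≤ 1 := (O.valuation_le_one_iff ε).2 h1
    have h5 : O.valuation ε⁻¹ ≤ 1 := (O.valuation_le_one_iff _).2 h2
    have h6 : O.valuation ε = 1 := by
      refine le_antisymm h4 ?_
      rw [map_inv₀] at h5
      have h7 : 0 < O.valuation ε := by
        rw [zero_lt_iff]
        exact (O.valuation.ne_zero_iff).2 h3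
      exact (inv_le_one₀ h7).1 h5
    rw [map_mul, h6, one_mul]
  · intro h
    by_cases hw : w = 0
    · subst hw
      rw [map_zero, map_eq_zero] at h
      subst h
      exact Ass.refl O 0
    · have hz : z ≠ 0 := by
        rintro rfl
        rw [map_zero] at h
        exact hw ((map_eq_zero _).1 h.symm)
      have hvw : O.valuation w ≠ 0 := (O.valuation.ne_zero_iff).2 hw
      refine ⟨z / w, ?_, ?_, div_ne_zero hz hw, (div_mul_cancel₀ z hw).symm⟩
      · rw [← O.valuation_le_one_iff, map_div₀, h, div_self hvw]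
      · rw [← O.valuation_le_one_iff, map_inv₀, map_div₀, h, div_self hvw, inv_one]

theorem OrdA_ne {O : ValuationSubring L} {t : L} (ht : t ≠ 0) : 0 < O.valuation t := by
  rw [zero_lt_iff]
  exact (O.valuation.ne_zero_iff).2 ht

/-- Integral exponents are determined. -/
theorem OrdA_zpow {O : ValuationSubring L} {t : L} (ht : t ≠ 0) (htn : t ∈ O.nonunits) {i j : ℤ}
    (h : O.valuation t ^ i = O.valuation t ^ j) : i = j := by
  have h1 : O.valuation t < 1 := (O.mem_nonunits_iff).1 htn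
  exact zpow_right_injective₀ (OrdA_ne ht) h1.ne h

/-- Constants are units. -/
theorem OrdA_const {O : ValuationSubring L} (hO : ∀ c : ℂ, algebraMap ℂ L c ∈ O) {c : ℂ}
    (hc : c ≠ 0) : O.valuation (algebraMap ℂ L c) = 1 := by
  have h1 : Ass O (algebraMap ℂ L c) 1 := by
    refine ⟨algebraMap ℂ L c, hO c, ?_, ?_, (mul_one _).symm⟩
    · rw [← map_inv₀]
      exact hO _
    · exact (_root_.map_ne_zero _).2 hc
  rw [OrdA_iff.1 h1, map_one]

/-- If `t` is a nonzero nonunit, the exponent is determined. -/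
theorem Ass.exp {O : ValuationSubring L} {t : L} (ht : t ≠ 0) (htn : t ∈ O.nonunits) {i j : ℕ}
    (h : Ass O (t ^ i) (t ^ j)) : i = j := by
  have h1 := OrdA_iff.1 h
  rw [map_pow, map_pow, ← zpow_natCast, ← zpow_natCast] at h1
  exact_mod_cast OrdA_zpow ht htn h1

/-- A polynomial which does not vanish at `a` is a unit at elements near `a`.  Proof: the value differs
from the nonzero constant `F.eval a` by an element of the maximal ideal. -/
theorem ass_poly {O : ValuationSubring L} (hO : ∀ c : ℂ, algebraMap ℂ L c ∈ O) {u : L} {a : ℂ}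
    (hu : Near O u a) {F : ℂ[X]} (hF : F.eval a ≠ 0) : Ass O (aeval u F) 1 := by
  have h1 := (Transp_eval O hO hu F).2
  rw [OrdA_iff, map_one]
  have h2 : O.valuation (algebraMap ℂ L (F.eval a)) = 1 := OrdA_const hO hF
  have h3 : O.valuation (aeval u F - algebraMap ℂ L (F.eval a)) < 1 := (O.mem_nonunits_iff).1 h1
  have h4 : aeval u F = (aeval u F - algebraMap ℂ L (F.eval a)) + algebraMap ℂ L (F.eval a) := by
    ring
  rw [h4, O.valuation.map_add_eq_of_lt_right (by rw [h2]; exact h3), h2]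

theorem OrdA_poly {O : ValuationSubring L} (hO : ∀ c : ℂ, algebraMap ℂ L c ∈ O) {u : L} {a : ℂ}
    (hu : Near O u a) {F : ℂ[X]} (hF : F.eval a ≠ 0) : O.valuation (aeval u F) = 1 := by
  rw [OrdA_iff.1 (ass_poly hO hu hF), map_one]

/-- The valuation of a polynomial at an element near `a`. -/
theorem OrdA_mult {O : ValuationSubring L} (hO : ∀ c : ℂ, algebraMap ℂ L c ∈ O) {u : L} {a : ℂ}
    (hu : Near O u a) {F : ℂ[X]} (hF : F ≠ 0) :
    O.valuation (aeval u F) = O.valuation (u - algebraMap ℂ L a) ^ F.rootMultiplicity a := by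
  obtain ⟨G, hG, hnd⟩ := exists_eq_pow_rootMultiplicity_mul_and_not_dvd F hF a
  have hGa : G.eval a ≠ 0 := fun h => hnd (dvd_iff_isRoot.2 h)
  conv_lhs => rw [hG]
  rw [map_mul, map_pow, map_mul, map_pow, OrdA_poly hO hu hGa, mul_one, map_sub, aeval_X,
    aeval_C]

/-- The valuation of an element of `E`, with an integral exponent. -/
theorem OrdA_ord {O : ValuationSubring L} (hO : ∀ c : ℂ, algebraMap ℂ L c ∈ O) {δu : E →ₐ[ℂ] L}
    {a : ℂ} (hu : Near O (δu RatFunc.X) a) {w : E} (hw : w ≠ 0) :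
    O.valuation (δu w) =
      O.valuation (δu RatFunc.X - algebraMap ℂ L a) ^ ((plE a).ord w) := by
  have hn : w.num ≠ 0 := RatFunc.num_ne_zero hw
  have hd : w.denom ≠ 0 := RatFunc.denom_ne_zero w
  have hna : algebraMap ℂ[X] E w.num ≠ 0 := fun h =>
    hn (RatFunc.algebraMap_injective ℂ (h.trans (map_zero _).symm))
  have hda : algebraMap ℂ[X] E w.denom ≠ 0 := fun h =>
    hd (RatFunc.algebraMap_injective ℂ (h.trans (map_zero _).symm))
  have hne : δu RatFunc.X - algebraMap ℂ L a ≠ 0 := by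
    intro h
    have h1 : δu RatFunc.X = δu (algebraMap ℂ E a) := by
      rw [AlgHom.commutes]
      exact sub_eq_zero.1 h
    exact ratFuncX_nonConst a (δu.toRingHom.injective h1)
  have hord : (plE a).ord w = (w.num.rootMultiplicity a : ℤ) - (w.denom.rootMultiplicity a : ℤ) := by
    conv_lhs => rw [← RatFunc.num_div_denom w]
    rw [Pl.ord_div _ hna hda, plE_poly a hn, plE_poly a hd]
  conv_lhs => rw [← RatFunc.num_div_denom w]
  rw [map_div₀, coord_poly, coord_poly, map_div₀, OrdA_mult hO hu hn, OrdA_mult hO hu hd, hord,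
    zpow_sub₀ (OrdA_ne hne).ne', zpow_natCast, zpow_natCast]

/-- An element of `E` of order `k` at `a` is a unit times the `k`-th power of the coordinate (for
`0 ≤ k`), at elements near `a`.  Proof: `w = (X - a) ^ k * f / g` with `f(a) ≠ 0`, `g(a) ≠ 0`; `ass_poly`. -/
theorem ass_ord {O : ValuationSubring L} (hO : ∀ c : ℂ, algebraMap ℂ L c ∈ O) {δu : E →ₐ[ℂ] L}
    {a : ℂ} (hu : Near O (δu RatFunc.X) a) {w : E} (hw : w ≠ 0) {k : ℕ} (hk : (plE a).ord w = k) :
    Ass O (δu w) ((δu RatFunc.X - algebraMap ℂ L a) ^ k) := by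
  rw [OrdA_iff, map_pow, OrdA_ord hO hu hw, hk, zpow_natCast]

/-- A solution near `b`: `(v - b) ^ e_b` is a unit times `t - t0`.

Proof.  `P(v) - t0 Q(v) = (t - t0) Q(v)`; `Q(b) ≠ 0` (`mem_fC'`), and `P - t0 Q = (X - b) ^ e_b * G` with `G(b) ≠ 0`
(`e_fC`, `pow_mul_divByMonic_rootMultiplicity_eq`, `eval_divByMonic_pow_rootMultiplicity_ne_zero`);
`ass_poly`. -/
theorem ass_sol {A : RF} (hn : 1 ≤ A.n) {O : ValuationSubring L}
    (hO : ∀ c : ℂ, algebraMap ℂ L c ∈ O) {t v : L} {t0 b : ℂ} (hb : b ∈ fC A t0) (hv : Sol A t v)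
    (hvb : Near O v b) : Ass O ((v - algebraMap ℂ L b) ^ A.e (some b)) (t - algebraMap ℂ L t0) := by
  obtain ⟨hQ, -⟩ := (mem_fC' hn).1 hb
  have hF : A.P - C t0 * A.Q ≠ 0 := A.F_ne_zero hn (some t0)
  have h1 : aeval v (A.P - C t0 * A.Q) = (t - algebraMap ℂ L t0) * aeval v A.Q := by
    have hv' : aeval v A.P = t * aeval v A.Q := hv
    rw [map_sub, map_mul, aeval_C, hv']
    ring
  have h2 := OrdA_mult hO hvb hF
  rw [h1, map_mul, OrdA_poly hO hvb hQ, mul_one] at h2
  rw [OrdA_iff, map_pow, e_fC hn hb]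
  exact h2.symm

/-- An element near another point: `v - b` is a unit. -/
theorem ass_far {O : ValuationSubring L} (hO : ∀ c : ℂ, algebraMap ℂ L c ∈ O) {v : L} {b b' : ℂ}
    (hv : Near O v b') (h : b' ≠ b) : Ass O (v - algebraMap ℂ L b) 1 := by
  have h1 := ass_poly hO hv (F := X - C b) (by rw [eval_sub, eval_X, eval_C]; exact sub_ne_zero.2 h)
  rwa [map_sub, aeval_X, aeval_C] at h1

open Classical in
/-- **The order of a product over solutions.**  Let `f ∈ E[T]` be a monic polynomial whose image under the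
coordinate `δu`, `u = δu X` a solution near `a`, is the product of `T - v` over a multiset (a finset with
labels) of solutions.  Then `e_b` times the order of `f(b)` at `a` is `e_a` times the number of the `v` near `b`.

Proof.  Let `w = f.eval b ∈ E`, `δu w = ∏ (b - v)`, nonzero because `v` is not constant (`Sol A t v` and `t` not
constant).  Its order `k` at `a` is nonnegative: otherwise `δu w` would be the inverse of a nonunit
(`ass_ord` for `w⁻¹`), but it lies in `O` because all `v ∈ O`.  Raise to the power `e_a * e_b`: by `ass_ord` and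
`ass_sol` (for `u` and `a`) `(δu w) ^ (e_a e_b)` is a unit times `(t - t0) ^ (k e_b)`; by `ass_sol` (for the `v` near `b`)
and `ass_far` (every solution is near exactly one point, `near_count`) it is a unit times
`(t - t0) ^ (e_a * number)`.  `Ass.exp` with `t - t0`, a nonzero nonunit. -/
theorem ord_prod {A : RF} (hA : WildG.NormG A) {δ : E →ₐ[ℂ] L} (hL : Amb δ)
    {O : ValuationSubring L} (hO : ∀ c : ℂ, algebraMap ℂ L c ∈ O) {t0 : ℂ}
    (ht : Near O (δ RatFunc.X) t0) {δu : E →ₐ[ℂ] L} (hu : Sol A (δ RatFunc.X) (δu RatFunc.X))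
    {a b : ℂ} (ha : Near O (δu RatFunc.X) a) (hb : b ∈ fC A t0) {f : E[X]} {ι : Type}
    (S : Finset ι) (v : ι → L) (hv : ∀ i ∈ S, Sol A (δ RatFunc.X) (v i))
    (hf : f.map δu.toRingHom = ∏ i ∈ S, (X - C (v i))) :
    (A.e (some b) : ℤ) * (plE a).ord (f.eval (algebraMap ℂ E b)) =
      A.e (some a) * ((S.filter fun i => Near O (v i) b).card : ℤ) := by
  have hn : 1 ≤ A.n := le_trans (by norm_num) hA.two
  set t : L := δ RatFunc.X with htdef
  obtain ⟨hnear, -⟩ := near_count hn hA.monic hA.lt hL O hO ht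
  -- `t - t0` is a nonzero nonunit
  have htc : ∀ c : ℂ, t ≠ algebraMap ℂ L c := by
    intro c h
    have h1 : δ RatFunc.X = δ (algebraMap ℂ E c) := by
      rw [AlgHom.commutes]
      exact h
    exact ratFuncX_nonConst c (δ.toRingHom.injective h1)
  have ht0 : t - algebraMap ℂ L t0 ≠ 0 := sub_ne_zero.2 (htc t0)
  have htn : t - algebraMap ℂ L t0 ∈ O.nonunits := ht
  obtain ⟨hQb, hPb⟩ := (mem_fC' hn).1 hb
  -- solutions are not equal to `b`
  have hvb : ∀ i ∈ S, v i - algebraMap ℂ L b ≠ 0 := by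
    intro i hi h
    have h1 : v i = algebraMap ℂ L b := sub_eq_zero.1 h
    have h2 : aeval (v i) A.P = t * aeval (v i) A.Q := hv i hi
    rw [h1, aeval_algebraMap_apply, aeval_algebraMap_apply] at h2
    have h3 : aeval b A.P = A.P.eval b := by rw [coe_aeval_eq_eval]
    have h4 : aeval b A.Q = A.Q.eval b := by rw [coe_aeval_eq_eval]
    rw [h3, h4, hPb, map_mul] at h2
    have h5 : algebraMap ℂ L (A.Q.eval b) ≠ 0 := (_root_.map_ne_zero _).2 hQb
    exact htc t0 (mul_right_cancel₀ h5 h2).symm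
  -- the value
  set w : E := f.eval (algebraMap ℂ E b) with hw
  have hδw : δu w = ∏ i ∈ S, (algebraMap ℂ L b - v i) := by
    have h1 : δu w = (f.map δu.toRingHom).eval (algebraMap ℂ L b) := by
      have h2 : algebraMap ℂ L b = δu.toRingHom (algebraMap ℂ E b) := (δu.commutes b).symm
      rw [h2, eval_map, eval₂_hom]
      rfl
    rw [h1, hf, eval_prod]
    refine Finset.prod_congr rfl fun i _ => ?_
    rw [eval_sub, eval_X, eval_C]
  have hw0 : w ≠ 0 := by
    intro h
    rw [h, map_zero] at hδw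
    obtain ⟨i, hi, h1⟩ := Finset.prod_eq_zero_iff.1 hδw.symm
    apply hvb i hi
    rw [← neg_sub, h1, neg_zero]
  -- the valuation of the value
  have hval : O.valuation (δu w) ^ A.e (some b) =
      O.valuation (t - algebraMap ℂ L t0) ^ (S.filter fun i => Near O (v i) b).card := by
    rw [hδw, map_prod, ← Finset.prod_pow, Finset.card_filter, ← Finset.prod_pow_eq_pow_sum]
    refine Finset.prod_congr rfl fun i hi => ?_
    have h0 : O.valuation (algebraMap ℂ L b - v i) = O.valuation (v i - algebraMap ℂ L b) :=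
      O.valuation.map_sub_swap _ _
    rw [h0]
    by_cases hi' : Near O (v i) b
    · rw [if_pos hi', pow_one, ← map_pow]
      exact OrdA_iff.1 (ass_sol hn hO hb (hv i hi) hi')
    · rw [if_neg hi', pow_zero]
      obtain ⟨b', hb', -, -⟩ := hnear (v i) (hv i hi)
      have hbb : b' ≠ b := by
        rintro rfl
        exact hi' hb'
      rw [OrdA_iff.1 (ass_far hO hb' hbb), map_one, one_pow]
  -- the point `a`
  have haf : a ∈ fC A t0 := by
    obtain ⟨a', ha', haf, -⟩ := hnear (δu RatFunc.X) hu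
    have h1 : a = a' := by
      obtain ⟨a'', h1, h2, h3⟩ := hnear (δu RatFunc.X) hu
      rw [h3 a ha, h3 a' ha']
    rw [h1]
    exact haf
  have hua : O.valuation (δu RatFunc.X - algebraMap ℂ L a) ^ A.e (some a) =
      O.valuation (t - algebraMap ℂ L t0) := by
    rw [← map_pow]
    exact OrdA_iff.1 (ass_sol hn hO haf hu ha)
  have hord := OrdA_ord hO ha hw0
  have hfin : O.valuation (t - algebraMap ℂ L t0) ^ ((A.e (some b) : ℤ) * (plE a).ord w) =
      O.valuation (t - algebraMap ℂ L t0) ^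
        ((A.e (some a) : ℤ) * ((S.filter fun i => Near O (v i) b).card : ℤ)) := by
    have h1 : O.valuation (t - algebraMap ℂ L t0) ^ ((A.e (some b) : ℤ) * (plE a).ord w) =
        (O.valuation (δu w) ^ A.e (some b)) ^ A.e (some a) := by
      rw [hord, ← hua, ← zpow_natCast, ← zpow_natCast, ← zpow_natCast, ← zpow_mul, ← zpow_mul,
        ← zpow_mul]
      congr 1
      ring
    rw [h1, hval, ← pow_mul, mul_comm (A.e (some a) : ℤ), ← Nat.cast_mul, zpow_natCast]
  exact OrdA_zpow ht0 htn hfin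

end WildLA
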