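import Pool.Agent.helper44.LA.MuA
import Pool.Agent.helper44.LA.OrdA
import Pool.Agent.helper44.LA.CycA
import Pool.Agent.helper21.WV.Cnt

/-! The number of places is bounded by the number of orbits on the arcs. -/

namespace WildLA

open Polynomial WildRat WildS WildV WildH Equiv

variable {K : Type} [Field K] [Algebra ℂ K]

open Classical in
/-- The number of the arcs over the pair `(a, b)`.

Proof.  Sum over the `e_a` solutions `u` near `a`: by `mu_arcs` and `ord_prod` (for a coordinate `δu` with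
`δu X = u`, `Amb.sol`) the number of the arcs `(u, v)` with `v` near `b` times `e_a` is `e_b * ord_a mu(b)`,
the same number for every `u`. -/
theorem arcs_card {A : RF} (hA : WildG.NormG A) {φ ψ : E →ₐ[ℂ] K} (hφ : FinC φ)
    {δ : E →ₐ[ℂ] AlgebraicClosure K} {s : Finset (AlgebraicClosure K)} (hs : SolS A δ s)
    (hδ : δ RatFunc.X = algebraMap K _ (φ (elt A))) {x y : s}
    (hx : (x : AlgebraicClosure K) = algebraMap K _ (φ RatFunc.X))
    (hy : (y : AlgebraicClosure K) = algebraMap K _ (ψ RatFunc.X)) {t0 : ℂ}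
    {O : ValuationSubring (AlgebraicClosure K)} {pt : s → ℂ} {π : Perm s}
    (h : Inert A δ s t0 O pt π) {a b : ℂ} (ha : a ∈ fC A t0) (hb : b ∈ fC A t0) :
    (((WildLD.orbOf (Act_G s (δ RatFunc.X)) x y).filter
      fun p => pt p.1 = a ∧ pt p.2 = b).card : ℤ) =
      A.e (some b) * (plE a).ord ((mu φ (ψ RatFunc.X)).eval (algebraMap ℂ E b)) := by
  have hn : 1 ≤ A.n := le_trans (by norm_num) hA.two
  set D := WildLD.orbOf (Act_G s (δ RatFunc.X)) x y with hD
  set k := (plE a).ord ((mu φ (ψ RatFunc.X)).eval (algebraMap ℂ E b)) with hk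
  have hu : ∀ u : s, pt u = a → (A.e (some a) : ℤ) *
      ((D.filter fun p => p.1 = u ∧ pt p.2 = b).card : ℤ) = A.e (some b) * k := by
    intro u hua
    have hsu : Sol A (δ RatFunc.X) u := (hs.mem _).1 u.2
    obtain ⟨δu, h1, -, -⟩ := hs.amb.sol hn hsu
    have h2 := mu_arcs hn hφ hs hδ hx hy u h1
    have h3 := ord_prod hA hs.amb h.const h.near (δu := δu) (by rw [h1]; exact hsu)
      (a := a) (b := b) (by rw [h1]; exact (h.pt_near u a).2 hua.symm) hb
      (D.filter fun p => p.1 = u) (fun p => ((p.2 : s) : AlgebraicClosure K))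
      (fun p _ => (hs.mem _).1 p.2.2) (by rw [h2])
    refine Eq.trans ?_ h3.symm
    have h4 : (D.filter fun p => p.1 = u ∧ pt p.2 = b) =
        (D.filter fun p => p.1 = u).filter fun p => Near O (p.2 : AlgebraicClosure K) b := by
      rw [Finset.filter_filter]
      refine Finset.filter_congr fun p _ => ?_
      rw [h.pt_near p.2 b]
      exact and_congr_right fun _ => eq_comm
    rw [h4]
  have hsum : ((D.filter fun p => pt p.1 = a ∧ pt p.2 = b).card : ℤ) =
      ∑ u ∈ Finset.univ.filter (fun u : s => pt u = a),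
        ((D.filter fun p => p.1 = u ∧ pt p.2 = b).card : ℤ) := by
    rw [Finset.card_eq_sum_card_fiberwise (f := fun p : s × s => p.1)
      (t := Finset.univ.filter (fun u : s => pt u = a))]
    · push_cast
      refine Finset.sum_congr rfl fun u hu' => ?_
      congr 1
      rw [Finset.filter_filter]
      congr 1
      refine Finset.filter_congr fun p _ => ?_
      have hua : pt u = a := (Finset.mem_filter.1 hu').2
      constructor
      · rintro ⟨⟨-, h2⟩, h3⟩
        exact ⟨h3, h2⟩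
      · rintro ⟨h2, h3⟩
        exact ⟨⟨by rw [h2]; exact hua, h3⟩, h2⟩
    · intro p hp
      have hp' := (Finset.mem_filter.1 (Finset.mem_coe.1 hp)).2.1
      exact Finset.mem_coe.2 (Finset.mem_filter.2 ⟨Finset.mem_univ _, hp'⟩)
  have hea : 0 < (A.e (some a) : ℤ) := by exact_mod_cast A.one_le_e hn (some a)
  have h4 : (A.e (some a) : ℤ) * ((D.filter fun p => pt p.1 = a ∧ pt p.2 = b).card : ℤ) =
      A.e (some a) * (A.e (some b) * k) := by
    rw [hsum, Finset.mul_sum]
    rw [Finset.sum_congr rfl fun u hu' => hu u (Finset.mem_filter.1 hu').2]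
    rw [Finset.sum_const, h.pt_card a ha, nsmul_eq_mul]
  exact mul_left_cancel₀ hea.ne' h4

open Classical in
/-- The number of places over the fibre.

Proof.  `PS_card` and the number `m` of `PS_mu`: `card (PS a b) * lcm e_a e_b ≤ e_b * m * ord_a mu(b)`, which is `m`
times the number of the arcs over `(a, b)` (`arcs_card`).  Divide by the `lcm` and sum over `a`, `b`; every
arc `p` lies over exactly one pair `(pt p.1, pt p.2)`, and the periods are the indices. -/
theorem places_le (hK : Good K) {A : RF} (hA : WildG.NormG A) {φ ψ : E →ₐ[ℂ] K}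
    (h0 : φ (elt A) = ψ (elt A)) {m : ℕ}
    (hm : ∀ a b t0 : ℂ, a ∈ fC A t0 →
        ∑ P ∈ PS hK φ ψ a b, P.ord (ψ RatFunc.X - algebraMap ℂ K b) =
          m * (plE a).ord ((mu φ (ψ RatFunc.X)).eval (algebraMap ℂ E b)))
    {δ : E →ₐ[ℂ] AlgebraicClosure K} {s : Finset (AlgebraicClosure K)} (hs : SolS A δ s)
    (hδ : δ RatFunc.X = algebraMap K _ (φ (elt A))) {x y : s}
    (hx : (x : AlgebraicClosure K) = algebraMap K _ (φ RatFunc.X))
    (hy : (y : AlgebraicClosure K) = algebraMap K _ (ψ RatFunc.X)) {t0 : ℂ}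
    {O : ValuationSubring (AlgebraicClosure K)} {pt : s → ℂ} {π : Perm s}
    (h : Inert A δ s t0 O pt π) :
    ((∑ a ∈ fC A t0, ∑ b ∈ fC A t0, ((PS hK φ ψ a b).card : ℤ) : ℤ) : ℚ) ≤
      m * ∑ p ∈ WildLD.orbOf (Act_G s (δ RatFunc.X)) x y,
        1 / (Nat.lcm (Function.minimalPeriod π p.1) (Function.minimalPeriod π p.2) : ℚ) := by
  have hn : 1 ≤ A.n := le_trans (by norm_num) hA.two
  set D := WildLD.orbOf (Act_G s (δ RatFunc.X)) x y with hD
  have hsum : ∑ p ∈ D, (1 / (Nat.lcm (Function.minimalPeriod π p.1)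
      (Function.minimalPeriod π p.2) : ℚ)) = ∑ a ∈ fC A t0, ∑ b ∈ fC A t0,
        ((D.filter fun p => pt p.1 = a ∧ pt p.2 = b).card : ℚ) *
          (1 / (Nat.lcm (A.e (some a)) (A.e (some b)) : ℚ)) := by
    rw [← Finset.sum_product', ← Finset.sum_fiberwise_of_maps_to
      (g := fun p : s × s => (pt p.1, pt p.2)) (t := fC A t0 ×ˢ fC A t0)
      (fun p _ => Finset.mem_product.2 ⟨h.pt_fC p.1, h.pt_fC p.2⟩)]
    refine Finset.sum_congr rfl fun ab _ => ?_
    rw [← nsmul_eq_mul, ← Finset.sum_const]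
    have h1 : (D.filter fun p => pt p.1 = ab.1 ∧ pt p.2 = ab.2) =
        D.filter fun p => (pt p.1, pt p.2) = ab := by
      refine Finset.filter_congr fun p _ => ?_
      rw [Prod.ext_iff]
    rw [h1]
    refine Finset.sum_congr rfl fun p hp => ?_
    have h2 := (Finset.mem_filter.1 hp).2
    rw [h.period p.1, h.period p.2, ← h2]
  rw [hsum, Finset.mul_sum]
  push_cast
  refine Finset.sum_le_sum fun a ha => ?_
  rw [Finset.mul_sum]
  refine Finset.sum_le_sum fun b hb => ?_
  have h1 := PS_card hK hn hA.lt h0 (b := b) ha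
  have h2 := arcs_card hA (hK.fin φ) hs hδ hx hy h ha hb
  rw [hm a b t0 ha] at h1
  have h3 : ((PS hK φ ψ a b).card : ℤ) * Nat.lcm (A.e (some a)) (A.e (some b)) ≤
      m * ((D.filter fun p => pt p.1 = a ∧ pt p.2 = b).card : ℤ) := by
    rw [h2]
    linarith
  have h4 : ((PS hK φ ψ a b).card : ℚ) * (Nat.lcm (A.e (some a)) (A.e (some b)) : ℚ) ≤
      m * ((D.filter fun p => pt p.1 = a ∧ pt p.2 = b).card : ℚ) := by exact_mod_cast h3
  have h5 : 0 < (Nat.lcm (A.e (some a)) (A.e (some b)) : ℚ) := by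
    exact_mod_cast Nat.lcm_pos (A.one_le_e hn (some a)) (A.one_le_e hn (some b))
  rw [← mul_assoc, mul_one_div, le_div_iff₀ h5]
  exact h4

open Classical in
/-- The number of arcs.  Proof: `mu_arcs` gives `natDegree mu` arcs at every one of the `A.n` points (compare
the degrees; `mu` is monic). -/
theorem card_arcs {A : RF} (hA : WildG.NormG A) {φ ψ : E →ₐ[ℂ] K} (hφ : FinC φ)
    {δ : E →ₐ[ℂ] AlgebraicClosure K} {s : Finset (AlgebraicClosure K)} (hs : SolS A δ s)
    (hδ : δ RatFunc.X = algebraMap K _ (φ (elt A))) {x y : s}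
    (hx : (x : AlgebraicClosure K) = algebraMap K _ (φ RatFunc.X))
    (hy : (y : AlgebraicClosure K) = algebraMap K _ (ψ RatFunc.X)) :
    (WildLD.orbOf (Act_G s (δ RatFunc.X)) x y).card = A.n * (mu φ (ψ RatFunc.X)).natDegree := by
  have hn : 1 ≤ A.n := le_trans (by norm_num) hA.two
  set D := WildLD.orbOf (Act_G s (δ RatFunc.X)) x y with hD
  have hu : ∀ u : s, (D.filter fun p => p.1 = u).card =
      (mu φ (ψ RatFunc.X)).natDegree := by
    intro u
    have hsu : Sol A (δ RatFunc.X) u := (hs.mem _).1 u.2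
    obtain ⟨δu, h1, -, -⟩ := hs.amb.sol hn hsu
    have h2 := mu_arcs hn hφ hs hδ hx hy u h1
    have h3 := congrArg natDegree h2
    rw [natDegree_map_eq_of_injective δu.toRingHom.injective,
      natDegree_finsetProd_X_sub_C_eq_card] at h3
    exact h3.symm
  rw [Finset.card_eq_sum_card_fiberwise (f := fun p : s × s => p.1) (t := Finset.univ)
    (fun p _ => Finset.mem_coe.2 (Finset.mem_univ _))]
  rw [Finset.sum_congr rfl fun u _ => hu u, Finset.sum_const, Finset.card_univ,
    Fintype.card_coe, hs.card, smul_eq_mul]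

open Classical in
/-- **The cost inequality.**

Proof.  `PS_rh` for `R` and `places_le`, with `deg φ = m * natDegree mu` (`PS_mu`) and `card_arcs`:
`∑ t0, (m card D - m ∑ 1 / lcm) ≤ 2 m card D`; divide by `m > 0`. -/
theorem cost_le (hK : Good K) {A : RF} (hA : WildG.NormG A) {φ ψ : E →ₐ[ℂ] K}
    (h0 : φ (elt A) = ψ (elt A))
    {δ : E →ₐ[ℂ] AlgebraicClosure K} {s : Finset (AlgebraicClosure K)} (hs : SolS A δ s)
    (hδ : δ RatFunc.X = algebraMap K _ (φ (elt A))) {x y : s}
    (hx : (x : AlgebraicClosure K) = algebraMap K _ (φ RatFunc.X))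
    (hy : (y : AlgebraicClosure K) = algebraMap K _ (ψ RatFunc.X))
    (O : ℂ → ValuationSubring (AlgebraicClosure K)) (pt : ℂ → s → ℂ) (π : ℂ → Perm s)
    (h : ∀ t0, Inert A δ s t0 (O t0) (pt t0) (π t0)) (R : Finset ℂ) :
    ∑ c ∈ R, ∑ p ∈ WildLD.orbOf (Act_G s (δ RatFunc.X)) x y,
      (1 - 1 / (Nat.lcm (Function.minimalPeriod (π c) p.1)
        (Function.minimalPeriod (π c) p.2) : ℚ)) ≤
      2 * (WildLD.orbOf (Act_G s (δ RatFunc.X)) x y).card := by
  have hn : 1 ≤ A.n := le_trans (by norm_num) hA.two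
  set D := WildLD.orbOf (Act_G s (δ RatFunc.X)) x y with hD
  obtain ⟨m, hm0, hdeg, hm⟩ := PS_mu hK hn hA.lt h0
  have h1 := PS_rh hK hn hA.lt h0 R
  have hcard : (D.card : ℚ) = A.n * ((mu φ (ψ RatFunc.X)).natDegree : ℚ) := by
    rw [hD, card_arcs hA (hK.fin φ) hs hδ hx hy]
    push_cast
    rfl
  have hdeg' : (A.n : ℚ) * (deg φ : ℚ) = m * D.card := by
    rw [hcard, ← hdeg]
    push_cast
    ring
  have h2 : (∑ t0 ∈ R, ((A.n : ℚ) * deg φ -
      ((∑ a ∈ fC A t0, ∑ b ∈ fC A t0, ((PS hK φ ψ a b).card : ℤ) : ℤ) : ℚ))) ≤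
        2 * (A.n * deg φ) := by
    exact_mod_cast h1
  have h3 : ∑ c ∈ R, ((m : ℚ) * ∑ p ∈ D, (1 - 1 / (Nat.lcm (Function.minimalPeriod (π c) p.1)
      (Function.minimalPeriod (π c) p.2) : ℚ))) ≤ 2 * (A.n * deg φ) := by
    refine le_trans (Finset.sum_le_sum fun c _ => ?_) h2
    have h4 := places_le hK hA h0 hm hs hδ hx hy (h c)
    rw [Finset.sum_sub_distrib, Finset.sum_const, nsmul_eq_mul, mul_one, mul_sub, hdeg']
    linarith
  rw [← Finset.mul_sum, hdeg'] at h3
  have hm1 : (0 : ℚ) < m := by exact_mod_cast hm0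
  refine le_of_mul_le_mul_left (a := (m : ℚ)) ?_ hm1
  linarith

open Classical in
/-- **Summary**: the data for the theorem on permutation groups.

Proof.  `L = AlgebraicClosure K`, `δ` from `amb_closure`, `s` from `exists_SolS`, `x`, `y` the images of
`φ X`, `ψ X` (`StA_self'` and `h0`; different by `coord_ne`), `exists_inert` for every `t0` (choice),
`cost_le`; `Inert.index` and `rh_fin`; `Inert.oc_dvd`. -/
theorem exists_data (hK : Good K) {A : RF} (hA : WildG.NormG A) {φ ψ : E →ₐ[ℂ] K} (hne : φ ≠ ψ)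
    (h0 : φ (elt A) = ψ (elt A)) :
    ∃ (δ : E →ₐ[ℂ] AlgebraicClosure K) (s : Finset (AlgebraicClosure K)) (x y : s)
      (π : ℂ → Perm s), SolS A δ s ∧ x ≠ y ∧ (∀ c, π c ∈ Act_G s (δ RatFunc.X)) ∧
      (∀ c, oc A (some c) ∣ orderOf (π c)) ∧
      (∀ R : Finset ℂ, (∀ a p : ℂ, A.val (some a) = some p → A.e (some a) ≠ 1 → p ∈ R) →
        ∑ c ∈ R, ∑ u : s, (1 - 1 / (Function.minimalPeriod (π c) u : ℚ)) =
          2 * Fintype.card s - 2) ∧
      ∀ R : Finset ℂ, ∑ c ∈ R, ∑ p ∈ WildLD.orbOf (Act_G s (δ RatFunc.X)) x y,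
        (1 - 1 / (Nat.lcm (Function.minimalPeriod (π c) p.1)
          (Function.minimalPeriod (π c) p.2) : ℚ)) ≤
        2 * (WildLD.orbOf (Act_G s (δ RatFunc.X)) x y).card := by
  have hn : 1 ≤ A.n := le_trans (by norm_num) hA.two
  obtain ⟨δ, hδ, hamb⟩ := amb_closure (K := K) hn (hK.fin φ)
  obtain ⟨s, hs⟩ := exists_SolS hA hamb
  have hxs : algebraMap K (AlgebraicClosure K) (φ RatFunc.X) ∈ s := by
    rw [hs.mem, hδ]
    exact StA_self' A hn φ
  have hys : algebraMap K (AlgebraicClosure K) (ψ RatFunc.X) ∈ s := by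
    rw [hs.mem, hδ, h0]
    exact StA_self' A hn ψ
  choose O pt π hI using fun t0 : ℂ => exists_inert hA hs t0
  refine ⟨δ, s, ⟨_, hxs⟩, ⟨_, hys⟩, π, hs, ?_, fun c => (hI c).mem, fun c => (hI c).oc_dvd hA,
    ?_, fun R => cost_le hK hA h0 hs hδ rfl rfl O pt π hI R⟩
  · intro h
    have h1 := congrArg Subtype.val h
    exact coord_ne hne ((algebraMap K (AlgebraicClosure K)).injective h1)
  · intro R hR
    have h1 := rh_fin hn hA.lt hA.unram R hR
    rw [Finset.sum_congr rfl fun c _ => (hI c).index hA hs, Fintype.card_coe, hs.card]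
    exact_mod_cast h1

end WildLA
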