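import Pool.Agent.helper44.LA.CostA
import Pool.Agent.helper44.LA.NumA
import Pool.Agent.helper44.LA.NormF
import Pool.Agent.helper21.LD.Final
import Pool.Agent.helper21.NI.FinalE

/-! Wild indecomposable rational functions of large degree. -/

namespace WildLA

open Polynomial WildRat WildS WildV WildH WildN

variable {K : Type} [Field K] [Algebra ℂ K]

/-- Transport of the condition on the Galois closure.  Proof: `Eqv.pas` gives `oc A' (T c) = oc A c`. -/
theorem galLe_of_eqv {A A' : RF} (hn : 1 ≤ A.n) {σ T : P1 → P1} (h : Eqv A A' σ T)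
    (h' : GalLe A') : GalLe A := by
  classical
  intro S
  have h1 := h' (S.image T)
  rw [Finset.sum_image h.tgt.1.injOn] at h1
  have h2 : ∀ c, oc A' (T c) = oc A c := fun c => by unfold oc; rw [h.pas hn c]
  simpa only [h2] using h1

/-- A term of the sum is nonnegative. -/
theorem Final_nonneg (A : RF) (c : P1) : (0 : ℚ) ≤ 1 - 1 / (oc A c : ℚ) := by
  rcases Nat.eq_zero_or_pos (oc A c) with h | h
  · rw [h]; norm_num
  · have h1 : (1 : ℚ) ≤ oc A c := by exact_mod_cast h
    have h2 : 1 / (oc A c : ℚ) ≤ 1 := by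
      rw [div_le_one (by linarith)]
      exact h1
    linarith

/-- Over a value which is not critical the least common multiple is one. -/
theorem Final_oc_one {A : RF} (hn : 1 ≤ A.n) {c : P1} (h : ∀ z, A.val z = c → A.e z = 1) :
    oc A c = 1 := by
  have h1 : oc A c ∣ 1 := by
    unfold oc
    rw [Multiset.lcm_dvd]
    intro e he
    obtain ⟨z, hz, rfl⟩ := Multiset.mem_map.1 he
    rw [h z ((mem_fibP hn).1 hz)]
  exact Nat.dvd_one.1 h1

theorem Final_term_zero {A : RF} (hn : 1 ≤ A.n) {c : P1} (h : ∀ z, A.val z = c → A.e z = 1) :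
    (1 - 1 / (oc A c : ℚ)) = 0 := by
  rw [Final_oc_one hn h]
  norm_num

/-- Three fibres `(3, .., 3, 1)`: the Galois closure has genus at most one.

Proof.  The three values account for the whole ramification (`HasTy_crit` in NI/Refine.lean), so `oc = 1`
at all other values, and `oc` divides three at these. -/
theorem galLe_of_333 {A : RF} (hn : 1 ≤ A.n) (h : Ty333 A) : GalLe A := by
  classical
  obtain ⟨k, hk, c, hc, hp⟩ := h
  have hrh : ((List.replicate 3 (1 :: List.replicate k 3)).map fun l => A.n - l.length).sum =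
      2 * A.n - 2 := by
    simp only [List.map_replicate, List.sum_replicate, List.length_cons, List.length_replicate]
    rw [hk, smul_eq_mul]
    omega
  have hcrit := fun z (hz : A.e z ≠ 1) => HasTy_crit hn hc hp hrh hz
  have hle : ∀ i, (1 - 1 / (oc A (c i) : ℚ)) ≤ 2 / 3 := by
    intro i
    have h1 : oc A (c i) ∣ 3 := by
      unfold oc
      rw [hp i, Multiset.lcm_dvd]
      intro e he
      have h2 : (List.replicate 3 (1 :: List.replicate k 3)).get i = 1 :: List.replicate k 3 := by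
        exact List.eq_of_mem_replicate (List.get_mem _ _)
      rw [h2, Multiset.mem_coe, List.mem_cons] at he
      rcases he with rfl | he
      · exact one_dvd _
      · rw [List.eq_of_mem_replicate he]
    have h3 : oc A (c i) ≤ 3 := Nat.le_of_dvd (by norm_num) h1
    have h4 : 0 < oc A (c i) := Nat.pos_of_dvd_of_pos h1 (by norm_num)
    have h5 : (oc A (c i) : ℚ) ≤ 3 := by exact_mod_cast h3
    have h6 : (0 : ℚ) < oc A (c i) := by exact_mod_cast h4
    have h7 : 1 / (3 : ℚ) ≤ 1 / (oc A (c i) : ℚ) := one_div_le_one_div_of_le h6 h5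
    linarith
  intro T
  have h1 : ∑ v ∈ T, (1 - 1 / (oc A v : ℚ)) =
      ∑ v ∈ T ∩ Finset.univ.image c, (1 - 1 / (oc A v : ℚ)) := by
    symm
    refine Finset.sum_subset Finset.inter_subset_left ?_
    intro v hv hv'
    refine Final_term_zero hn fun z hz => ?_
    by_contra hcon
    obtain ⟨i, hi⟩ := hcrit z hcon
    exact hv' (Finset.mem_inter.2 ⟨hv, Finset.mem_image.2 ⟨i, Finset.mem_univ _, hi.trans hz⟩⟩)
  have h2 : ∑ v ∈ T ∩ Finset.univ.image c, (1 - 1 / (oc A v : ℚ)) ≤
      ∑ v ∈ Finset.univ.image c, (1 - 1 / (oc A v : ℚ)) :=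
    Finset.sum_le_sum_of_subset_of_nonneg Finset.inter_subset_right
      fun v _ _ => Final_nonneg A v
  rw [h1]
  refine h2.trans ?_
  rw [Finset.sum_image fun i _ j _ hij => hc hij]
  have h3 : ∑ i : Fin (List.replicate 3 (1 :: List.replicate k 3)).length,
      (1 - 1 / (oc A (c i) : ℚ)) ≤
      ∑ _i : Fin (List.replicate 3 (1 :: List.replicate k 3)).length, (2 / 3 : ℚ) :=
    Finset.sum_le_sum fun i _ => hle i
  refine h3.trans (le_of_eq ?_)
  rw [Finset.sum_const, Finset.card_univ, Fintype.card_fin, List.length_replicate]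
  norm_num

theorem Final_spor_ok : ∀ τ ∈ sporJ, τ ≠ [] ∧ ∀ l ∈ τ, l.sum ≤ 10 := by
  decide +kernel

/-- The largest degree of the sporadic types is ten. -/
theorem spor_small {A : RF} (hn : 1 ≤ A.n) {τ : List (List ℕ)} (hτ : τ ∈ sporJ)
    (h : HasTy A τ) : A.n ≤ 10 := by
  obtain ⟨h1, h2⟩ := Final_spor_ok τ hτ
  obtain ⟨c, -, hp⟩ := h
  have hpos : 0 < τ.length := List.length_pos_iff.2 h1
  have h3 : ((τ.get ⟨0, hpos⟩).sum) = A.n := by
    have h4 := pas_sum hn (c ⟨0, hpos⟩)
    rw [hp, Multiset.sum_coe] at h4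
    exact h4
  rw [← h3]
  exact h2 _ (List.get_mem _ _)

/-- The doubly transitive case.

Proof.  `DTm A` gives `TWf A` by `W_one`, `TW_of_TWf`, and `irr_typesJ` (`DT A` from `DTm A`);
`galLe_of_333`, `spor_small`. -/
theorem large_two (hK : Good K) {A : RF} (hA : WildG.NormG A) (hD : DTm A) {φ ψ : E →ₐ[ℂ] K}
    (hne : φ ≠ ψ) (h0 : φ (elt A) = ψ (elt A)) (hN : 11 ≤ A.n) : GalLe A ∨ TypAB A := by
  have hn : 1 ≤ A.n := by omega
  have hTW : WildH.TW A := by
    obtain ⟨mu0, hirr, hmon, hgg⟩ := id hD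
    exact TW_of_TWf hn hA.lt hA.unram
      fun T => W_one hK hA.two hA.lt hA.unram hirr hmon hgg hne h0 T
  rcases irr_typesJ hA.two (DT_of_DTm hD) hTW with h | h | ⟨τ, hτ, h⟩
  · exact Or.inr h
  · exact Or.inl (galLe_of_333 hn h)
  · have := spor_small hn hτ h
    omega

/-- The normalised case.

Proof.  `N0` from `WildLD.large` (and `N0 ≥ 11`).  Assume `GalLe A` is false: there is a finite set `T` of values
with `∑ (1 - 1 / oc) > 2`; the value infinity does not contribute (all indices over it are one, so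
`oc = 1`), so there is a finite set `T0` of complex numbers with this property, and it may be enlarged to
contain all finite critical values (`ramified_finite`).  `exists_data`.  If the group is doubly
transitive: `SolS.two`, `large_two`.  Otherwise `WildLD.large` with `SolS.prim`, `SolS.tr`, `orbOf_orb`,
`I = T0`, `σ = π` gives `card s < N0`, and `card s = A.n`.  (`oc ∣ orderOf`, so `1 - 1 / oc ≤ 1 - 1 / orderOf`.) -/
theorem large_norm : ∃ N0 : ℕ, ∀ (K : Type) [Field K] [Algebra ℂ K] (_ : Good K) (A : RF)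
    (_ : WildG.NormG A) (_ : Indec A) (φ ψ : E →ₐ[ℂ] K) (_ : φ ≠ ψ) (_ : φ (elt A) = ψ (elt A)),
    N0 ≤ A.n → GalLe A ∨ TypAB A := by
  classical
  obtain ⟨N1, hN1⟩ := WildLD.large
  refine ⟨max N1 11, ?_⟩
  intro K _ _ hK A hA hi φ ψ hne h0 hN
  have hn : 1 ≤ A.n := le_trans (by norm_num) hA.two
  have hN2 : N1 ≤ A.n := le_trans (le_max_left _ _) hN
  have hN3 : 11 ≤ A.n := le_trans (le_max_right _ _) hN
  by_cases hG : GalLe A
  · exact Or.inl hG
  obtain ⟨δ, s, x, y, π, hs, hxy, hπ, hoc, hrh, hcost⟩ := exists_data hK hA hne h0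
  by_cases h2 : ∀ a b a' b' : s, a ≠ b → a' ≠ b' → ∃ g ∈ Act_G s (δ RatFunc.X), g a = a' ∧ g b = b'
  · exact large_two hK hA (hs.two hA h2) hne h0 hN3
  exfalso
  unfold GalLe at hG
  push Not at hG
  obtain ⟨T, hT⟩ := hG
  obtain ⟨T0, hT0⟩ : ∃ T0 : Finset ℂ, T0 = T.eraseNone ∪ (critV A hn).eraseNone := ⟨_, rfl⟩
  have h3 : ∑ c ∈ T, (1 - 1 / (oc A c : ℚ)) ≤ ∑ c ∈ T0, (1 - 1 / (oc A (some c) : ℚ)) := by
    have h4 : ∑ c ∈ T, (1 - 1 / (oc A c : ℚ)) =
        ∑ c ∈ T.erase none, (1 - 1 / (oc A c : ℚ)) := by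
      symm
      refine Finset.sum_subset (Finset.erase_subset _ _) ?_
      intro c hc hc'
      have h5 : c = none := by
        by_contra h6
        exact hc' (Finset.mem_erase.2 ⟨h6, hc⟩)
      rw [h5]
      exact Final_term_zero hn hA.unram
    have h5 : T.erase none ⊆ T0.image some := by
      intro c hc
      obtain ⟨hc1, hc2⟩ := Finset.mem_erase.1 hc
      obtain ⟨c', rfl⟩ := Option.ne_none_iff_exists'.1 hc1
      rw [hT0, Finset.mem_image]
      exact ⟨c', Finset.mem_union_left _ (Finset.mem_eraseNone.2 hc2), rfl⟩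
    rw [h4]
    refine (Finset.sum_le_sum_of_subset_of_nonneg h5 fun v _ _ => Final_nonneg A v).trans ?_
    rw [Finset.sum_image fun i _ j _ hij => Option.some_injective _ hij]
  have hcard : Fintype.card s = A.n := by
    rw [Fintype.card_coe]
    exact hs.card
  have hlt : Fintype.card s < N1 := by
    refine hN1 (hs.prim hA hi) (hs.tr hn) h2 (WildLD.orbOf_orb hxy) T0 π (fun i _ => hπ i) ?_
      (hcost T0) ?_
    · refine hrh T0 ?_
      intro a p hap hea
      rw [hT0]
      refine Finset.mem_union_right _ (Finset.mem_eraseNone.2 ?_)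
      rw [mem_critV hn]
      refine ⟨some a, hap, ?_⟩
      have := A.one_le_e hn (some a)
      omega
    · refine lt_of_lt_of_le (lt_of_lt_of_le hT h3) ?_
      refine Finset.sum_le_sum fun c _ => ?_
      have h6 : 0 < orderOf (π c) := orderOf_pos _
      have h7 : oc A (some c) ≤ orderOf (π c) := Nat.le_of_dvd h6 (hoc c)
      have h8 : 0 < oc A (some c) := Nat.pos_of_dvd_of_pos (hoc c) h6
      have h9 : (oc A (some c) : ℚ) ≤ (orderOf (π c) : ℚ) := by exact_mod_cast h7
      have h10 : (0 : ℚ) < (oc A (some c) : ℚ) := by exact_mod_cast h8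
      have h11 := one_div_le_one_div_of_le h10 h9
      linarith
  rw [hcard] at hlt
  omega

theorem Final_good {N0 : ℕ} (hN0 : ∀ (K : Type) [Field K] [Algebra ℂ K] (_ : Good K) (A : RF)
    (_ : WildG.NormG A) (_ : Indec A) (φ ψ : E →ₐ[ℂ] K) (_ : φ ≠ ψ) (_ : φ (elt A) = ψ (elt A)),
    N0 ≤ A.n → GalLe A ∨ TypAB A) (hK : Good K) (A : RF) (hn : 2 ≤ A.n) (hN : N0 ≤ A.n)
    (hi : Indec A) (hsol : A.SolIn K) : GalLe A ∨ TypAB A := by
  obtain ⟨U, V, hU, hUV, hE⟩ := hsol
  have hn1 : 1 ≤ A.n := by omega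
  have hV : NonConst V := RF.Eqn.nonConst hn1 hU hE
  obtain ⟨φ, hφ⟩ := exists_subst hU
  obtain ⟨ψ, hψ⟩ := exists_subst hV
  have hne : φ ≠ ψ := by
    rintro rfl
    exact hUV (hφ.symm.trans hψ)
  have h : φ (elt A) = ψ (elt A) := by
    rw [coord_elt, coord_elt, hφ, hψ]
    exact RF.Eqn.app_eq hn1 hU hE
  obtain ⟨A', hA', hn', htr, ⟨σ, T, hEq⟩, hback⟩ := normaliseF A hn
  obtain ⟨φ', ψ', hne', h'⟩ := htr K φ ψ hne h
  have hi' : Indec A' := by
    intro B' C' hB hC hcomp
    obtain ⟨B, C, h1, h2, h3, -⟩ := hback B' C' hcomp hC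
    rw [← h2, ← h3]
    exact hi B C (by rw [h2]; exact hB) (by rw [h3]; exact hC) h1
  rcases hN0 K hK A' hA' hi' φ' ψ' hne' h' (by rw [hn']; exact hN) with h1 | h1
  · exact Or.inl (galLe_of_eqv hn1 hEq h1)
  · exact Or.inr (hEq.typAB h1)

/-- **Large degree, hard direction.**

Proof.  `N0` from `large_norm` (and `≥ 2`).  `Wild` gives a solution in `E` or in `KF f` (`good_E`, `good_KF`,
see `hard_lone` in HD/FinalL.lean for the pattern), hence `φ ≠ ψ` with `φ (elt A) = ψ (elt A)`;
`normaliseF`; `galLe_of_eqv`, `Eqv.typAB`; indecomposability of `A'` from the last clause of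
`normaliseF`. -/
theorem large_hard : ∃ N0 : ℕ, ∀ A : RF, N0 ≤ A.n → Indec A → A.Wild → GalLe A ∨ TypAB A := by
  obtain ⟨N0, hN0⟩ := large_norm
  refine ⟨max N0 2, fun A hA hi hw => ?_⟩
  have h1 : N0 ≤ A.n := le_trans (le_max_left _ _) hA
  have h2 : 2 ≤ A.n := le_trans (le_max_right _ _) hA
  rcases hw with hr | ⟨f, hf3, hsq, hsol⟩
  · exact Final_good hN0 good_E A h2 h1 hi hr
  · have := kf_fact f (by rw [hf3]; decide)
    exact Final_good hN0 (good_KF f hf3 hsq) A h2 h1 hi hsol

/-- **Easy direction** (all degrees at least two).  Proof: `tw_of_galLe` and `wild_of_TW`; `TypAB` is in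
`TyJ`, `types_wild` with the trivial decomposition, or `wild_of_TW` directly (`TW` for `TypAB` is in
WV). -/
theorem galLe_wild {A : RF} (hn : 2 ≤ A.n) (h : GalLe A ∨ TypAB A) : A.Wild := by
  have hn1 : 1 ≤ A.n := by omega
  rcases h with h | h
  · refine WildG.wild_of_TW hn1 (B := Normal_id) (C := A) ?_ hn (tw_of_galLe hn1 h)
    show A.app (RatFunc.X : RatFunc ℂ) = Normal_id.app (A.app (RatFunc.X : RatFunc ℂ))
    unfold Normal_id RF.app
    simp
  · exact typ_wild A (Or.inr (Or.inl h))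

/-- **Wild indecomposable rational functions of large degree.** -/
theorem large_iff : ∃ N0 : ℕ, ∀ A : RF, N0 ≤ A.n → Indec A →
    (A.Wild ↔ GalLe A ∨ TypAB A) := by
  obtain ⟨N0, h⟩ := large_hard
  refine ⟨max N0 2, fun A hA hi => ⟨h A (le_trans (le_max_left _ _) hA) hi, fun h' =>
    galLe_wild (le_trans (le_max_right _ _) hA) h'⟩⟩

end WildLA
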