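import Pool.Agent.helper44.LA.Defs

/-! The permutation group on the solutions. -/

namespace WildLA

open Polynomial WildRat WildS WildV WildH Equiv

variable {L : Type} [Field L] [Algebra ℂ L]

/-- An automorphism fixing `t` induces an element of the group.  Proof: `Act_ind`, `Sol.map`. -/
theorem SolS.act {A : RF} {δ : E →ₐ[ℂ] L} {s : Finset L} (h : SolS A δ s) (τ : L ≃ₐ[ℂ] L)
    (ht : τ (δ RatFunc.X) = δ RatFunc.X) :
    ∃ π ∈ Act_G s (δ RatFunc.X), ∀ z : s, τ z = π z := by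
  exact Act_ind τ ht fun z hz => (h.mem _).2 (((h.mem z).1 hz).map τ ht)

/-- The group is transitive.  Proof: `Amb.trans`, `SolS.act`. -/
theorem SolS.tr {A : RF} (hn : 1 ≤ A.n) {δ : E →ₐ[ℂ] L} {s : Finset L} (h : SolS A δ s) :
    WildLD.Tr (Act_G s (δ RatFunc.X)) := by
  intro x y
  obtain ⟨τ, hτ, hxy⟩ := h.amb.trans hn ((h.mem _).1 x.2) ((h.mem _).1 y.2)
  obtain ⟨π, hπ, hπτ⟩ := h.act τ hτ
  refine ⟨π, hπ, Subtype.ext ?_⟩
  rw [← hπτ x]
  exact hxy

/-- The group of an indecomposable function is primitive.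

Proof.  Let `R` be an invariant equivalence relation on `s`, and let `R' z w` say that `z`, `w` are
elements of `s` with `R z w`.  `exists_class` (`SolS.act` for the invariance) gives `A = B ∘ C` with
`R' z w ↔ Sm C z w` for solutions; `C.P` is monic and `C.Q` has smaller degree, so `1 ≤ C.n` unless `C` is
constant, which is impossible because `A` is not constant (`C.P` monic of degree `0` and `C.Q.natDegree < 0`
is impossible anyway).  `1 ≤ B.n`, `A.n = B.n * C.n`: `comp_facts`.  If `C.n = 1`: the class of `z` has one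
element (`Amb.cls`), so `R` is equality.  If `B.n = 1`: the class of `z` has `C.n = A.n = card s` elements and is
contained in `s` (`Amb.cls`), so everything is related to `z`. -/
theorem SolS.prim {A : RF} (hA : WildG.NormG A) (hi : Indec A) {δ : E →ₐ[ℂ] L} {s : Finset L}
    (h : SolS A δ s) : WildJ.Prim (Act_G s (δ RatFunc.X)) := by
  have hn : 1 ≤ A.n := le_trans (by norm_num) hA.two
  intro R hR hG
  obtain ⟨B, C, hcomp, hCm, hClt, hiff⟩ := exists_class hn hA.monic hA.lt h.amb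
    (R := fun z w => ∃ (hz : z ∈ s) (hw : w ∈ s), R ⟨z, hz⟩ ⟨w, hw⟩)
    (fun z hz => ⟨(h.mem z).2 hz, (h.mem z).2 hz, hR.refl _⟩)
    (fun z w _ _ ⟨hz, hw, h1⟩ => ⟨hw, hz, hR.symm h1⟩)
    (fun z w v _ _ _ ⟨hz, hw, h1⟩ ⟨hw', hv, h2⟩ => ⟨hz, hv, hR.trans h1 h2⟩)
    (by
      rintro τ z w hτ hz' hw' ⟨hz, hw, h1⟩
      obtain ⟨π, hπ, hπτ⟩ := h.act τ hτ
      have h2 := hG π hπ _ _ h1
      have e1 : π ⟨z, hz⟩ = ⟨τ z, (h.mem _).2 (hz'.map τ hτ)⟩ := Subtype.ext (hπτ ⟨z, hz⟩).symm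
      have e2 : π ⟨w, hw⟩ = ⟨τ w, (h.mem _).2 (hw'.map τ hτ)⟩ := Subtype.ext (hπτ ⟨w, hw⟩).symm
      rw [e1, e2] at h2
      exact ⟨_, _, h2⟩)
  have hCn : 1 ≤ C.n := by
    have h1 : C.P.natDegree ≤ C.n := le_max_left _ _
    omega
  obtain ⟨hBn, hABC, -, -⟩ := comp_facts hcomp hn hCn
  rcases hi B C hBn hCn hcomp with hB | hC
  · right
    intro x y
    have hx := (h.mem _).1 x.2
    have hy := (h.mem _).1 y.2
    obtain ⟨s', h1, h2, h3⟩ := h.amb.cls hn hcomp hCm hClt hx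
    have hsub : s' ⊆ s := fun w hw => (h.mem w).2 (h3 w hw)
    have heq : s' = s := Finset.eq_of_subset_of_card_le hsub (by
      rw [h.card, h2, hABC, hB, one_mul])
    have hsm : Sm C (x : L) (y : L) := (h1 _).1 (by rw [heq]; exact y.2)
    obtain ⟨_, _, h4⟩ := (hiff _ _ hx hy).2 hsm
    exact h4
  · left
    intro x y hxy
    have hx := (h.mem _).1 x.2
    have hy := (h.mem _).1 y.2
    obtain ⟨s', h1, h2, h3⟩ := h.amb.cls hn hcomp hCm hClt hx
    have hsm : Sm C (x : L) (y : L) := (hiff _ _ hx hy).1 ⟨x.2, y.2, hxy⟩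
    have hxx : Sm C (x : L) (x : L) := rfl
    have hle : s'.card ≤ 1 := by rw [h2, hC]
    exact Subtype.ext (Finset.card_le_one.1 hle _ ((h1 _).2 hxx) _ ((h1 _).2 hsm))

/-- If the group is doubly transitive, the curve is irreducible.

Proof.  Let `x ∈ s` (`card s = A.n ≥ 2`), `δx` its coordinate (`Amb.sol`).  For `v` with `Sm A x v`: `v` is a
solution (`Sm A x v` and `Sol A t x`; see the proof of `Amb.cls` in HD/Gal.lean, or use `Amb.cls` for
`A = X ∘ A`), so `irr_of_two` for `δx` follows from the double transitivity, applied to `(x, v)` and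
`(x, v')`: there are `τ` with `τ t = t`, `τ x = x`, `τ v = v'`. -/
theorem SolS.two {A : RF} (hA : WildG.NormG A) {δ : E →ₐ[ℂ] L} {s : Finset L}
    (h : SolS A δ s)
    (h2 : ∀ a b a' b' : s, a ≠ b → a' ≠ b' → ∃ g ∈ Act_G s (δ RatFunc.X), g a = a' ∧ g b = b') :
    DTm A := by
  have hn : 1 ≤ A.n := le_trans (by norm_num) hA.two
  obtain ⟨x, hx⟩ : s.Nonempty := by
    rw [← Finset.card_pos, h.card]
    exact hn
  have hxs : Sol A (δ RatFunc.X) x := (h.mem x).1 hx
  obtain ⟨δx, hδx, hδxA, hLx⟩ := h.amb.sol hn hxs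
  have hQ : aeval x A.Q ≠ 0 := by
    have h1 : NonConst x := by
      rw [← hδx]
      exact coord_nonConst δx
    exact h1.aeval_ne_zero (A.Q_ne_zero hn)
  have hmem : ∀ v, Sm A x v → v ∈ s := by
    intro v hv
    rw [h.mem]
    have h1 : aeval x A.P * aeval v A.Q = aeval v A.P * aeval x A.Q := hv
    have h2 : aeval x A.P = δ RatFunc.X * aeval x A.Q := hxs
    show aeval v A.P = δ RatFunc.X * aeval v A.Q
    apply mul_right_cancel₀ hQ
    rw [← h1, h2]
    ring
  refine irr_of_two hA.two hA.monic hA.lt hLx ?_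
  rw [hδx]
  intro v v' hv hvx hv' hvx'
  obtain ⟨g, ⟨τ, hτ, hg⟩, h3, h4⟩ := h2 ⟨x, hx⟩ ⟨v, hmem v hv⟩ ⟨x, hx⟩ ⟨v', hmem v' hv'⟩
    (fun he => hvx (congrArg Subtype.val he).symm) (fun he => hvx' (congrArg Subtype.val he).symm)
  refine ⟨τ, ?_, ?_⟩
  · have h5 := hg ⟨x, hx⟩
    rw [h3] at h5
    exact h5
  · have h5 := hg ⟨v, hmem v hv⟩
    rw [h4] at h5
    exact h5

end WildLA
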