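import Pool.Agent.helper44.LA.GrpA

/-! The minimal polynomial as a product over the out-neighbours. -/

namespace WildLA

open Polynomial WildRat WildS WildV WildH Equiv

variable {K : Type} [Field K] [Algebra ℂ K]

/-- A coordinate `φ` of `K` as a coordinate of the algebraic closure. -/
theorem exists_lift (φ : E →ₐ[ℂ] K) : ∃ φ' : E →ₐ[ℂ] AlgebraicClosure K,
    ∀ v : E, φ' v = algebraMap K (AlgebraicClosure K) (φ v) := by
  refine ⟨(IsScalarTower.toAlgHom ℂ K (AlgebraicClosure K)).comp φ, fun v => rfl⟩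

theorem MuA_root (φ : E →ₐ[ℂ] K) (u : K) : (mu φ u).eval₂ φ.toRingHom u = 0 := by
  unfold mu
  let := φ.toRingHom.toAlgebra
  exact minpoly.aeval E u

theorem MuA_mudvd (φ : E →ₐ[ℂ] K) (u : K) {p : E[X]} (h : p.eval₂ φ.toRingHom u = 0) :
    mu φ u ∣ p := by
  unfold mu
  let := φ.toRingHom.toAlgebra
  exact minpoly.dvd E u h

open Classical in
/-- The product over the arcs starting at `u`. -/
noncomputable def MuA_N (s : Finset (AlgebraicClosure K)) (t : AlgebraicClosure K) (x y u : s) :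
    (AlgebraicClosure K)[X] :=
  ∏ p ∈ (WildLD.orbOf (Act_G s t) x y).filter (fun p => p.1 = u),
    (X - C (p.2 : AlgebraicClosure K))

open Classical in
theorem MuA_orb {s : Finset (AlgebraicClosure K)} {t : AlgebraicClosure K} {x y : s}
    {p : s × s} : p ∈ WildLD.orbOf (Act_G s t) x y ↔ ∃ g ∈ Act_G s t, g x = p.1 ∧ g y = p.2 := by
  unfold WildLD.orbOf
  rw [Finset.mem_filter]
  exact ⟨fun h => h.2, fun h => ⟨Finset.mem_univ _, h⟩⟩

/-- Automorphisms move the products. -/
theorem MuA_map {s : Finset (AlgebraicClosure K)} {t : AlgebraicClosure K} {x y u : s}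
    {τ : AlgebraicClosure K ≃ₐ[ℂ] AlgebraicClosure K} {π : Perm s} (hπ : π ∈ Act_G s t)
    (h : ∀ z : s, τ z = π z) :
    (MuA_N s t x y u).map (τ : AlgebraicClosure K →+* AlgebraicClosure K) =
      MuA_N s t x y (π u) := by
  classical
  unfold MuA_N
  rw [Polynomial.map_prod]
  refine Finset.prod_bij (fun p _ => (π p.1, π p.2)) ?_ ?_ ?_ ?_
  · intro p hp
    obtain ⟨h1, h2⟩ := Finset.mem_filter.1 hp
    obtain ⟨g, hg, hg1, hg2⟩ := MuA_orb.1 h1
    refine Finset.mem_filter.2 ⟨MuA_orb.2 ⟨π * g, mul_mem hπ hg, ?_, ?_⟩, ?_⟩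
    · rw [Perm.mul_apply, hg1]
    · rw [Perm.mul_apply, hg2]
    · show π p.1 = π u
      rw [h2]
  · intro p _ q _ hpq
    have h1 : π p.1 = π q.1 := congrArg Prod.fst hpq
    have h2 : π p.2 = π q.2 := congrArg Prod.snd hpq
    exact Prod.ext (π.injective h1) (π.injective h2)
  · intro q hq
    obtain ⟨h1, h2⟩ := Finset.mem_filter.1 hq
    obtain ⟨g, hg, hg1, hg2⟩ := MuA_orb.1 h1
    refine ⟨(π⁻¹ q.1, π⁻¹ q.2), Finset.mem_filter.2 ⟨MuA_orb.2 ⟨π⁻¹ * g,
      mul_mem (inv_mem hπ) hg, ?_, ?_⟩, ?_⟩, ?_⟩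
    · rw [Perm.mul_apply, hg1]
    · rw [Perm.mul_apply, hg2]
    · show π⁻¹ q.1 = u
      rw [h2]
      exact π.symm_apply_apply u
    · exact Prod.ext (π.apply_symm_apply q.1) (π.apply_symm_apply q.2)
  · intro p _
    rw [Polynomial.map_sub, map_X, map_C]
    congr 2
    exact h p.2

theorem MuA_monic (s : Finset (AlgebraicClosure K)) (t : AlgebraicClosure K) (x y u : s) :
    (MuA_N s t x y u).Monic := monic_prod_of_monic _ _ fun _ _ => monic_X_sub_C _

open Classical in
/-- The product divides a polynomial vanishing at the ends of the arcs. -/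
theorem MuA_dvd {s : Finset (AlgebraicClosure K)} {t : AlgebraicClosure K} {x y u : s}
    {q : (AlgebraicClosure K)[X]}
    (h : ∀ v : s, (u, v) ∈ WildLD.orbOf (Act_G s t) x y → q.eval (v : AlgebraicClosure K) = 0) :
    MuA_N s t x y u ∣ q := by
  classical
  unfold MuA_N
  apply Finset.prod_dvd_of_coprime
  · intro p hp r hr hpr
    obtain ⟨-, h1⟩ := Finset.mem_filter.1 (Finset.mem_coe.1 hp)
    obtain ⟨-, h2⟩ := Finset.mem_filter.1 (Finset.mem_coe.1 hr)
    apply isCoprime_X_sub_C_of_isUnit_sub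
    rw [isUnit_iff_ne_zero, sub_ne_zero]
    intro h3
    exact hpr (Prod.ext (h1.trans h2.symm) (Subtype.ext h3))
  · intro p hp
    obtain ⟨h1, h2⟩ := Finset.mem_filter.1 hp
    rw [dvd_iff_isRoot, IsRoot.def]
    apply h
    rw [← h2]
    exact h1

open Classical in
/-- **The roots of the minimal polynomial at the start point.**

Proof.  `x = φ X`, `y = ψ X` in `L = AlgebraicClosure K`, `t = φ (elt A) = ψ (elt A)`, so `x`, `y` are solutions
(`StA_self'`).  Let `N = ∏ v ∈ D_x, (T - v)` over `L`, `D_x` the set of the `v` with `(x, v)` in the orbit of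
`(x, y)`.  An automorphism `τ` with `τ x = x` fixes `t` (`t` is a rational function of `x`) and permutes `D_x`
(it induces an element of the group, `SolS.act`), so the coefficients of `N` are fixed and lie in the
range of `δx` (`Amb.fixed` for the coordinate `δx`, `δx X = x`, `Amb.sol`): `N = N0.map δx` with a monic
`N0 ∈ E[T]` of degree `card D_x` (compare the proof of `exists_class` in HD/ClassF.lean).  `N0` vanishes at `y`,
so `mu ∣ N0` (`Norm0_dvd` in HD/Norm0.lean, `minpoly.dvd`; `δx v = algebraMap (φ v)`, `coord_ext`).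
Conversely every `v ∈ D_x` is a root of `mu.map δx`: `v = g y`, `x = g x` for an automorphism `g` fixing `t`; it
fixes the range of `δx`.  So `∏ v ∈ D_x, (T - v)` divides `mu.map δx` (distinct roots), and the degrees
give equality. -/
theorem mu_start {A : RF} (hn : 1 ≤ A.n) {φ ψ : E →ₐ[ℂ] K} (hφ : FinC φ)
    {δ : E →ₐ[ℂ] AlgebraicClosure K} {s : Finset (AlgebraicClosure K)} (hs : SolS A δ s)
    (hδ : δ RatFunc.X = algebraMap K _ (φ (elt A))) {x y : s}
    (hx : (x : AlgebraicClosure K) = algebraMap K _ (φ RatFunc.X))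
    (hy : (y : AlgebraicClosure K) = algebraMap K _ (ψ RatFunc.X))
    {δx : E →ₐ[ℂ] AlgebraicClosure K} (hδx : δx RatFunc.X = x) :
    (mu φ (ψ RatFunc.X)).map δx.toRingHom =
      ∏ p ∈ (WildLD.orbOf (Act_G s (δ RatFunc.X)) x y).filter (fun p => p.1 = x),
        (X - C (p.2 : AlgebraicClosure K)) := by
  classical
  have hxs : Sol A (δ RatFunc.X) x := (hs.mem _).1 x.2
  obtain ⟨δx', h1', h2', h3'⟩ := hs.amb.sol hn hxs
  have hδxx : δx' = δx := coord_ext (h1'.trans hδx.symm)
  rw [hδxx] at h2' h3'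
  clear h1' hδxx
  -- `δx` is the restriction of the inclusion
  have hδφ : ∀ v, δx v = algebraMap K (AlgebraicClosure K) (φ v) := by
    obtain ⟨φ', hφ'⟩ := exists_lift φ
    have h1 : δx = φ' := by
      apply coord_ext
      rw [hδx, hx, hφ']
    intro v
    rw [h1, hφ']
  have hcompx : ∀ τ : AlgebraicClosure K ≃ₐ[ℂ] AlgebraicClosure K, τ (x : AlgebraicClosure K) = x →
      (∀ v, τ (δx v) = δx v) := by
    intro τ hτ v
    have h1 : (τ : AlgebraicClosure K →ₐ[ℂ] AlgebraicClosure K).comp δx = δx := by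
      apply coord_ext
      rw [AlgHom.comp_apply, hδx]
      exact hτ
    have h2 : (τ : AlgebraicClosure K →ₐ[ℂ] AlgebraicClosure K).comp δx v = δx v := by rw [h1]
    exact h2
  change (mu φ (ψ RatFunc.X)).map δx.toRingHom = MuA_N s (δ RatFunc.X) x y x
  obtain ⟨N0, hN0⟩ : ∃ N0, N0 = MuA_N s (δ RatFunc.X) x y x := ⟨_, rfl⟩
  rw [← hN0]
  have hlift : ∀ i, ∃ v : E, δx v = N0.coeff i := by
    intro i
    apply h3'.fixed
    intro τ hτ
    rw [hδx] at hτ
    have hτt : τ (δ RatFunc.X) = δ RatFunc.X := by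
      rw [← h2']
      exact hcompx τ hτ _
    obtain ⟨π, hπ, hτπ⟩ := hs.act τ hτt
    have hπx : π x = x := Subtype.ext (by rw [← hτπ, hτ])
    have h1 := MuA_map (x := x) (y := y) (u := x) hπ hτπ
    rw [hπx, ← hN0] at h1
    have h2 := congrArg (fun p => p.coeff i) h1
    simp only [coeff_map] at h2
    exact h2
  obtain ⟨N, hN⟩ : ∃ N : E[X], N.map δx.toRingHom = N0 := by
    have h2 : N0 ∈ Polynomial.lifts δx.toRingHom := by
      rw [Polynomial.lifts_iff_coeff_lifts]
      intro i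
      obtain ⟨v, hv⟩ := hlift i
      exact ⟨v, hv⟩
    exact (Polynomial.mem_lifts N0).1 h2
  have heval : ∀ q : E[X], (q.map δx.toRingHom).eval (y : AlgebraicClosure K) =
      algebraMap K (AlgebraicClosure K) (q.eval₂ φ.toRingHom (ψ RatFunc.X)) := by
    intro q
    have h1 : δx.toRingHom = (algebraMap K (AlgebraicClosure K)).comp φ.toRingHom :=
      RingHom.ext fun v => hδφ v
    rw [eval_map, h1, hy, hom_eval₂]
  have hxy : (x, y) ∈ WildLD.orbOf (Act_G s (δ RatFunc.X)) x y :=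
    MuA_orb.2 ⟨1, one_mem _, rfl, rfl⟩
  have hNy : N.eval₂ φ.toRingHom (ψ RatFunc.X) = 0 := by
    apply (algebraMap K (AlgebraicClosure K)).injective
    rw [map_zero, ← heval, hN, hN0]
    unfold MuA_N
    rw [eval_prod]
    refine Finset.prod_eq_zero (i := (x, y)) ?_ ?_
    · rw [Finset.mem_filter]
      exact ⟨hxy, rfl⟩
    · rw [eval_sub, eval_X, eval_C, sub_self]
  have hd1 : (mu φ (ψ RatFunc.X)).map δx.toRingHom ∣ N0 := by
    rw [← hN]
    exact Polynomial.map_dvd _ (MuA_mudvd φ _ hNy)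
  have hd2 : N0 ∣ (mu φ (ψ RatFunc.X)).map δx.toRingHom := by
    rw [hN0]
    apply MuA_dvd
    intro v hv
    obtain ⟨g, hg, hg1, hg2⟩ := MuA_orb.1 hv
    obtain ⟨τ, hτ, hτg⟩ := hg
    have hgx : τ (x : AlgebraicClosure K) = x := by
      rw [hτg, hg1]
    have hgy : (v : AlgebraicClosure K) = τ (y : AlgebraicClosure K) := by
      rw [hτg, hg2]
    have h1 : ((mu φ (ψ RatFunc.X)).map δx.toRingHom).map
        (τ : AlgebraicClosure K →+* AlgebraicClosure K) =
        (mu φ (ψ RatFunc.X)).map δx.toRingHom := by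
      rw [Polynomial.map_map]
      congr 1
      exact RingHom.ext fun v => hcompx τ hgx v
    have h2 := Polynomial.eval_map_apply (p := (mu φ (ψ RatFunc.X)).map δx.toRingHom)
      (f := (τ : AlgebraicClosure K →+* AlgebraicClosure K)) (y : AlgebraicClosure K)
    rw [h1, heval, MuA_root, map_zero, map_zero] at h2
    rw [hgy]
    exact h2
  have hm1 : ((mu φ (ψ RatFunc.X)).map δx.toRingHom).Monic := (mu_pos φ hφ _).1.map _
  have hm2 : N0.Monic := by
    rw [hN0]
    exact MuA_monic _ _ _ _ _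
  exact eq_of_monic_of_associated hm1 hm2 (associated_of_dvd_dvd hd1 hd2)

open Classical in
/-- **The roots of the minimal polynomial at any point.**

Proof.  Let `τ` be an automorphism with `τ t = t` and `τ x = u` (`SolS.tr`).  `τ ∘ δx = δu` (`coord_ext`), so
`(mu.map δu) = (mu.map δx).map τ`; apply `τ` to the product of `mu_start`; `τ` induces `g` in the group with
`g x = u`, and `p ↦ (g p.1, g p.2)` maps the arcs starting at `x` bijectively to the arcs starting at
`u`. -/
theorem mu_arcs {A : RF} (hn : 1 ≤ A.n) {φ ψ : E →ₐ[ℂ] K} (hφ : FinC φ)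
    {δ : E →ₐ[ℂ] AlgebraicClosure K} {s : Finset (AlgebraicClosure K)} (hs : SolS A δ s)
    (hδ : δ RatFunc.X = algebraMap K _ (φ (elt A))) {x y : s}
    (hx : (x : AlgebraicClosure K) = algebraMap K _ (φ RatFunc.X))
    (hy : (y : AlgebraicClosure K) = algebraMap K _ (ψ RatFunc.X)) (u : s)
    {δu : E →ₐ[ℂ] AlgebraicClosure K} (hδu : δu RatFunc.X = u) :
    (mu φ (ψ RatFunc.X)).map δu.toRingHom =
      ∏ p ∈ (WildLD.orbOf (Act_G s (δ RatFunc.X)) x y).filter (fun p => p.1 = u),
        (X - C (p.2 : AlgebraicClosure K)) := by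
  classical
  have hxs : Sol A (δ RatFunc.X) x := (hs.mem _).1 x.2
  have hus : Sol A (δ RatFunc.X) u := (hs.mem _).1 u.2
  obtain ⟨δx, h1, -, -⟩ := hs.amb.sol hn hxs
  obtain ⟨τ, hτ1, hτ2⟩ := hs.amb.trans hn hxs hus
  obtain ⟨π, hπ, hτπ⟩ := hs.act τ hτ1
  have hπx : π x = u := Subtype.ext (by rw [← hτπ, hτ2])
  have h2 := mu_start hn hφ hs hδ hx hy h1
  change _ = MuA_N s (δ RatFunc.X) x y x at h2
  change _ = MuA_N s (δ RatFunc.X) x y u
  have h3 := MuA_map (x := x) (y := y) (u := x) hπ hτπ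
  rw [hπx, ← h2, Polynomial.map_map] at h3
  rw [← h3]
  congr 1
  have h4 : δu = (τ : AlgebraicClosure K →ₐ[ℂ] AlgebraicClosure K).comp δx := by
    apply coord_ext
    rw [AlgHom.comp_apply, h1, hδu]
    exact hτ2.symm
  rw [h4]
  rfl

end WildLA
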